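import Pool.Agent.SemRO.Nbp

/-! The explicit function: evaluation of a polynomial modulo a number, and existence of parameters
for which it is rectangle-free. -/

namespace Pool.Agent.SemRO

open Finset

lemma flip_card {n : ℕ} (z : Fin n → Bool) (i : Fin n) :
    Even (Finset.univ.filter (fun j => Function.update z i (!z i) j = true)).card ↔
    ¬ Even (Finset.univ.filter (fun j => z j = true)).card := by
  classical
  cases hz : z i
  · have h1 : (Finset.univ.filter (fun j => Function.update z i (!false) j = true)) =
        insert i (Finset.univ.filter (fun j => z j = true)) := by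
      ext j
      by_cases hj : j = i
      · subst hj; simp
      · simp [hj]
    have h2 : i ∉ (Finset.univ.filter (fun j => z j = true)) := by simp [hz]
    rw [h1, Finset.card_insert_of_notMem h2, Nat.even_add_one]
  · have h1 : (Finset.univ.filter (fun j => z j = true)) =
        insert i (Finset.univ.filter (fun j => Function.update z i (!true) j = true)) := by
      ext j
      by_cases hj : j = i
      · subst hj; simp [hz]
      · simp [hj]
    have h2 : i ∉ (Finset.univ.filter (fun j => Function.update z i (!true) j = true)) := by simp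
    rw [h1, Finset.card_insert_of_notMem h2, Nat.even_add_one, not_not]

lemma func_sensitive (n : ℕ) (t p a) : Sensitive {x | func n t p a x} := by
  intro z hz i hcon
  exact (flip_card z i).mp hcon.1 hz.1

lemma ofBits_injective {n : ℕ} : Function.Injective (fun x : Fin n → Bool => Nat.ofBits x) := by
  intro x y h
  funext i
  have h1 := Nat.testBit_ofBits_lt x i.val i.isLt
  have h2 := Nat.testBit_ofBits_lt y i.val i.isLt
  simp only at h
  rw [h] at h1
  rw [← h1, ← h2]

/-- `k`-wise independence of random polynomials, as an upper bound -/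
lemma count_eval {q : ℕ} [Fact q.Prime] {K : ℕ} (y : Fin K → ZMod q) (hy : Function.Injective y)
    (T : Finset (ZMod q)) :
    (Finset.univ.filter (fun a : Fin K → ZMod q => ∀ s, ∑ j, a j * y s ^ (j : ℕ) ∈ T)).card ≤
      T.card ^ K := by
  classical
  have h1 : (Finset.univ.filter (fun a : Fin K → ZMod q => ∀ s, ∑ j, a j * y s ^ (j : ℕ) ∈ T)).card ≤
      (Fintype.piFinset (fun _ : Fin K => T)).card := by
    apply Finset.card_le_card_of_injOn (fun a => fun s => ∑ j : Fin K, a j * y s ^ (j : ℕ))
    · intro a ha
      have := (Finset.mem_filter.mp ha).2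
      exact Finset.mem_coe.mpr (Fintype.mem_piFinset.mpr this)
    · intro a _ b _ hab
      have h2 : a - b = 0 := by
        apply Matrix.eq_zero_of_forall_index_sum_mul_pow_eq_zero hy
        intro s
        have := congrFun hab s
        simp only at this
        simp only [Pi.sub_apply, sub_mul, Finset.sum_sub_distrib]
        rw [this, sub_self]
      exact sub_eq_zero.mp h2
  rwa [Fintype.card_piFinset, Finset.prod_const, Finset.card_univ, Fintype.card_fin] at h1

lemma parity_class_card {q : ℕ} [Fact q.Prime] (t : Bool) :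
    (Finset.univ.filter (fun v : ZMod q => v.val % 2 = t.toNat)).card ≤ (q + 1) / 2 := by
  classical
  have hq : 0 < q := (Fact.out : q.Prime).pos
  have : NeZero q := ⟨hq.ne'⟩
  have : (Finset.univ.filter (fun v : ZMod q => v.val % 2 = t.toNat)).card ≤
      (Finset.range ((q + 1) / 2)).card := by
    apply Finset.card_le_card_of_injOn (fun v => v.val / 2)
    · intro v _
      have := ZMod.val_lt v
      simp only [Finset.coe_range, Set.mem_Iio]
      omega
    · intro v hv w hw h
      have h1 := (Finset.mem_filter.mp hv).2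
      have h2 := (Finset.mem_filter.mp hw).2
      simp only at h
      apply ZMod.val_injective q
      omega
  simpa using this

lemma sq_le_two_pow (n : ℕ) (hn : 10 ≤ n) : 2 * (2 * n + 2) ^ 2 ≤ 2 ^ n := by
  induction n, hn using Nat.le_induction with
  | base => norm_num
  | succ n hn ih =>
    rw [pow_succ 2 n]
    nlinarith

lemma pow_succ_le (q K : ℕ) (hK : 2 * K ≤ q) (hq : 0 < q) : (q + 1) ^ K ≤ 2 * q ^ K := by
  have hqr : (0 : ℝ) < q := by exact_mod_cast hq
  have h1 : ((q : ℝ) + 1) ^ K = q ^ K * (1 + 1 / q) ^ K := by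
    rw [← mul_pow]; congr 1; field_simp
  have h2 : (1 + 1 / (q : ℝ)) ^ K ≤ 2 := by
    calc (1 + 1 / (q : ℝ)) ^ K ≤ (Real.exp (1 / q)) ^ K := by
          apply pow_le_pow_left₀ (by positivity)
          have := Real.add_one_le_exp (1 / (q : ℝ))
          linarith
      _ = Real.exp (K * (1 / q)) := by rw [← Real.exp_nat_mul]
      _ ≤ Real.exp (1 / 2) := by
          apply Real.exp_le_exp.mpr
          rw [mul_one_div, div_le_div_iff₀ hqr (by norm_num)]
          have : (2 : ℝ) * K ≤ q := by exact_mod_cast hK
          linarith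
      _ ≤ 2 := by
          have h3 : Real.exp (1 / 2) ^ 2 = Real.exp 1 := by
            rw [← Real.exp_nat_mul]; norm_num
          have h4 := Real.exp_one_lt_d9
          have h5 := Real.exp_pos (1 / 2)
          nlinarith
  have h3 : ((q : ℝ) + 1) ^ K ≤ 2 * q ^ K := by
    rw [h1]
    nlinarith [pow_pos hqr K]
  exact_mod_cast h3

open Classical in
/-- coefficients giving rectangle-free sets for both values of `t` -/
lemma exists_coef (n : ℕ) (hn : 10 ≤ n) (q : ℕ) [Fact q.Prime] (hq1 : 2 ^ n < q) :
    ∃ a : Fin (numCoef n) → ZMod q, ∀ t : Bool, RectFree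
      {x : Fin n → Bool | (∑ j, a j * ((Nat.ofBits x : ℕ) : ZMod q) ^ (j : ℕ)).val % 2 = t.toNat}
      (2 * n + 2) := by
  set L := 2 * n + 2 with hL
  set K := numCoef n with hK
  have hKL : K = L * L := by rw [hK, hL]; unfold numCoef; ring
  have hq0 : 0 < q := (Fact.out : q.Prime).pos
  have : NeZero q := ⟨hq0.ne'⟩
  let e : Fin K ≃ Fin L × Fin L := (finCongr hKL).trans finProdFinEquiv.symm
  let Tt : Bool → Finset (ZMod q) := fun t => Finset.univ.filter (fun v : ZMod q => v.val % 2 = t.toNat)
  let pts : (Finset (Fin n) × (Fin L → Fin n → Bool) × (Fin L → Fin n → Bool)) → Fin K → ZMod q :=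
    fun w s => ((Nat.ofBits (mix w.1 (w.2.1 (e s).1) (w.2.2 (e s).2)) : ℕ) : ZMod q)
  let IX := (Finset (Fin n) × (Fin L → Fin n → Bool) × (Fin L → Fin n → Bool)) × Bool
  let badIdx : Finset IX := Finset.univ.filter (fun w => Function.Injective (pts w.1))
  let badSet : IX → Finset (Fin K → ZMod q) := fun w =>
    Finset.univ.filter (fun a => ∀ s, ∑ j, a j * pts w.1 s ^ (j : ℕ) ∈ Tt w.2)
  -- the union of the bad sets is not everything
  have hcard : (badIdx.biUnion badSet).card < Fintype.card (Fin K → ZMod q) := by
    have h1 : (badIdx.biUnion badSet).card ≤ badIdx.card * ((q + 1) / 2) ^ K := by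
      apply Finset.card_biUnion_le_card_mul
      intro w hw
      refine (count_eval (pts w.1) (Finset.mem_filter.mp hw).2 (Tt w.2)).trans ?_
      exact Nat.pow_le_pow_left (parity_class_card w.2) K
    have h2 : badIdx.card ≤ 2 ^ (n + n * L + n * L + 1) := by
      calc badIdx.card ≤ Fintype.card IX := Finset.card_le_univ _
        _ = 2 ^ (n + n * L + n * L + 1) := by
            simp only [IX, Fintype.card_prod, Fintype.card_finset, Fintype.card_fin, Fintype.card_fun,
              Fintype.card_bool]
            rw [← pow_mul]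
            ring
    have h3 : 2 ^ K * ((q + 1) / 2) ^ K ≤ 2 * q ^ K := by
      rw [← mul_pow]
      refine (Nat.pow_le_pow_left (Nat.mul_div_le (q + 1) 2) K).trans ?_
      apply pow_succ_le q K _ hq0
      have := sq_le_two_pow n hn
      rw [hK]; unfold numCoef
      omega
    have h4 : Fintype.card (Fin K → ZMod q) = q ^ K := by
      rw [Fintype.card_fun, ZMod.card, Fintype.card_fin]
    rw [h4]
    have h5 : 2 ^ K = 2 ^ (n + n * L + n * L + 1) * 2 ^ (3 * n + 3) := by
      rw [← pow_add]
      congr 1
      rw [hKL, hL]; ring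
    have h6 : 2 ^ K * (badIdx.biUnion badSet).card < 2 ^ K * q ^ K := by
      calc 2 ^ K * (badIdx.biUnion badSet).card
          ≤ 2 ^ K * (2 ^ (n + n * L + n * L + 1) * ((q + 1) / 2) ^ K) := by
            apply Nat.mul_le_mul_left
            exact h1.trans (Nat.mul_le_mul_right _ h2)
        _ = 2 ^ (n + n * L + n * L + 1) * (2 ^ K * ((q + 1) / 2) ^ K) := by ring
        _ ≤ 2 ^ (n + n * L + n * L + 1) * (2 * q ^ K) := Nat.mul_le_mul_left _ h3
        _ < 2 ^ K * q ^ K := by
            rw [h5]
            have hqK : 0 < q ^ K := pow_pos hq0 K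
            have h7 : 2 < 2 ^ (3 * n + 3) := by
              calc 2 = 2 ^ 1 := rfl
                _ < 2 ^ (3 * n + 3) := Nat.pow_lt_pow_right (by norm_num) (by omega)
            have h8 : 0 < 2 ^ (n + n * L + n * L + 1) := by positivity
            calc 2 ^ (n + n * L + n * L + 1) * (2 * q ^ K)
                < 2 ^ (n + n * L + n * L + 1) * (2 ^ (3 * n + 3) * q ^ K) :=
                  Nat.mul_lt_mul_of_pos_left (Nat.mul_lt_mul_of_pos_right h7 hqK) h8
              _ = _ := by ring
    exact Nat.lt_of_mul_lt_mul_left h6
  obtain ⟨a, ha⟩ : ∃ a : Fin K → ZMod q, a ∉ badIdx.biUnion badSet := by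
    by_contra hcon
    push Not at hcon
    have : badIdx.biUnion badSet = Finset.univ := Finset.eq_univ_of_forall hcon
    rw [this, Finset.card_univ] at hcard
    exact lt_irrefl _ hcard
  refine ⟨a, fun t A u v hu hv => ?_⟩
  by_contra hcon
  push Not at hcon
  apply ha
  refine Finset.mem_biUnion.mpr ⟨((A, u, v), t), ?_, ?_⟩
  · refine Finset.mem_filter.mpr ⟨Finset.mem_univ _, ?_⟩
    intro s s' hss
    simp only [pts] at hss
    have h1 : Nat.ofBits (mix A (u (e s).1) (v (e s).2)) = Nat.ofBits (mix A (u (e s').1) (v (e s').2)) := by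
      have := congrArg ZMod.val hss
      rw [ZMod.val_natCast, ZMod.val_natCast, Nat.mod_eq_of_lt ((Nat.ofBits_lt_two_pow _).trans hq1),
        Nat.mod_eq_of_lt ((Nat.ofBits_lt_two_pow _).trans hq1)] at this
      exact this
    have h2 := ofBits_injective h1
    apply e.injective
    apply Prod.ext
    · by_contra hne
      obtain ⟨x, hx, hne'⟩ := hu _ _ hne
      have := congrFun h2 x
      simp only [mix, hx, if_true] at this
      exact hne' this
    · by_contra hne
      obtain ⟨x, hx, hne'⟩ := hv _ _ hne
      have := congrFun h2 x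
      simp only [mix, hx, if_false] at this
      exact hne' this
  · refine Finset.mem_filter.mpr ⟨Finset.mem_univ _, fun s => ?_⟩
    refine Finset.mem_filter.mpr ⟨Finset.mem_univ _, ?_⟩
    exact hcon (e s).1 (e s).2

lemma RectFree.mono {n : ℕ} {F F' : Set (Fin n → Bool)} {L : ℕ} (h : RectFree F L) (hF : F' ⊆ F) :
    RectFree F' L := by
  intro A u v hu hv
  obtain ⟨i, j, hij⟩ := h A u v hu hv
  exact ⟨i, j, fun hc => hij (hF hc)⟩

lemma even_card (n : ℕ) (hn : 0 < n) :
    2 ^ n ≤ 2 * (Finset.univ.filter (fun x : Fin n → Bool =>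
      Even (Finset.univ.filter (fun i => x i = true)).card)).card := by
  classical
  let i0 : Fin n := ⟨0, hn⟩
  have h1 : (Finset.univ.filter (fun x : Fin n → Bool =>
      ¬ Even (Finset.univ.filter (fun i => x i = true)).card)).card ≤
      (Finset.univ.filter (fun x : Fin n → Bool =>
      Even (Finset.univ.filter (fun i => x i = true)).card)).card := by
    apply Finset.card_le_card_of_injOn (fun x => Function.update x i0 (!x i0))
    · intro x hx
      exact Finset.mem_coe.mpr (Finset.mem_filter.mpr ⟨Finset.mem_univ _,
        (flip_card x i0).mpr (Finset.mem_filter.mp hx).2⟩)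
    · intro x _ y _ hxy
      simp only at hxy
      funext j
      by_cases hj : j = i0
      · subst hj
        have := congrFun hxy i0
        simpa using this
      · have := congrFun hxy j
        rwa [Function.update_of_ne hj, Function.update_of_ne hj] at this
  have h2 := Finset.card_filter_add_card_filter_not (s := (Finset.univ : Finset (Fin n → Bool)))
    (fun x => Even (Finset.univ.filter (fun i => x i = true)).card)
  rw [Finset.card_univ, Fintype.card_fun, Fintype.card_bool, Fintype.card_fin] at h2
  omega

open Classical in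
/-- good parameters -/
theorem exists_params (n : ℕ) (hn : 10 ≤ n) : ∃ (t : Bool) (p : Fin (n + 1) → Bool)
    (a : Fin (numCoef n) → Fin (n + 1) → Bool),
    RectFree {x | func n t p a x} (2 * n + 2) ∧
    (2 : ℝ) ^ n / 4 ≤ ((Finset.univ.filter (fun z => z ∈ {x | func n t p a x})).card : ℕ) := by
  obtain ⟨q, hqp, hq1, hq2⟩ := Nat.exists_prime_lt_and_le_two_mul (2 ^ n) (by positivity)
  have : Fact q.Prime := ⟨hqp⟩
  have : NeZero q := ⟨hqp.pos.ne'⟩
  have hq3 : q < 2 ^ (n + 1) := by
    rcases lt_or_eq_of_le hq2 with h | h
    · rw [pow_succ, mul_comm]; exact h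
    · exfalso
      have h2 : 2 ∣ q := by rw [h]; exact dvd_mul_right 2 _
      have h3 := (Nat.prime_dvd_prime_iff_eq Nat.prime_two hqp).mp h2
      have h4 : 2 ^ 1 ≤ 2 ^ n := Nat.pow_le_pow_right (by norm_num) (by omega)
      omega
  obtain ⟨c, hc⟩ := exists_coef n hn q hq1
  let p : Fin (n + 1) → Bool := fun i => q.testBit i
  let a : Fin (numCoef n) → Fin (n + 1) → Bool := fun j i => (c j).val.testBit i
  have hp : Nat.ofBits p = q := by
    have := Nat.ofBits_testBit q (n + 1)
    rw [Nat.mod_eq_of_lt hq3] at this
    exact this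
  have ha : ∀ j, Nat.ofBits (a j) = (c j).val := by
    intro j
    have := Nat.ofBits_testBit (c j).val (n + 1)
    rw [Nat.mod_eq_of_lt ((ZMod.val_lt (c j)).trans hq3)] at this
    exact this
  have hval : ∀ x, value n p a x = (∑ j, c j * ((Nat.ofBits x : ℕ) : ZMod q) ^ (j : ℕ)).val := by
    intro x
    unfold value
    rw [hp, ← ZMod.val_natCast]
    congr 1
    push_cast
    refine Finset.sum_congr rfl fun j _ => ?_
    rw [ha j, ZMod.natCast_zmod_val]
  have hR : ∀ t, RectFree {x | func n t p a x} (2 * n + 2) := by
    intro t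
    apply (hc t).mono
    intro x hx
    have := hx.2
    rw [hval x] at this
    exact this
  -- one of the two values of `t` gives a large set
  have h1 := even_card n (by omega)
  have h2 : (Finset.univ.filter (fun x : Fin n → Bool =>
      Even (Finset.univ.filter (fun i => x i = true)).card)) ⊆
      (Finset.univ.filter (fun z => z ∈ {x | func n false p a x})) ∪
      (Finset.univ.filter (fun z => z ∈ {x | func n true p a x})) := by
    intro x hx
    have hx' := (Finset.mem_filter.mp hx).2
    rcases Nat.mod_two_eq_zero_or_one (value n p a x) with h | h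
    · exact Finset.mem_union_left _ (Finset.mem_filter.mpr ⟨Finset.mem_univ _, hx', h⟩)
    · exact Finset.mem_union_right _ (Finset.mem_filter.mpr ⟨Finset.mem_univ _, hx', h⟩)
  have h3 := (Finset.card_le_card h2).trans (Finset.card_union_le _ _)
  rcases le_total (Finset.univ.filter (fun z => z ∈ {x | func n false p a x})).card
    (Finset.univ.filter (fun z => z ∈ {x | func n true p a x})).card with h4 | h4
  · refine ⟨true, p, a, hR true, ?_⟩
    have h5 : 2 ^ n ≤ 4 * (Finset.univ.filter (fun z => z ∈ {x | func n true p a x})).card := by omega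
    have h6 : (2 : ℝ) ^ n ≤ 4 * ((Finset.univ.filter (fun z => z ∈ {x | func n true p a x})).card : ℕ) := by
      exact_mod_cast h5
    linarith
  · refine ⟨false, p, a, hR false, ?_⟩
    have h5 : 2 ^ n ≤ 4 * (Finset.univ.filter (fun z => z ∈ {x | func n false p a x})).card := by omega
    have h6 : (2 : ℝ) ^ n ≤ 4 * ((Finset.univ.filter (fun z => z ∈ {x | func n false p a x})).card : ℕ) := by
      exact_mod_cast h5
    linarith

end Pool.Agent.SemRO
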