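import Mathlib

/-! Definitions used in the statement: nondeterministic branching programs and the explicit function. -/

namespace Pool.Agent.SemRO

/-- A nondeterministic branching program with node set `V` over Boolean variables indexed by `I`:
an arbitrary directed graph (not even assumed acyclic) with a source, an accepting node, unlabelled
edges (`free`), and edges labelled by a literal (`test u i b v` is an edge from `u` to `v` labelled
`x_i = b`); any number of edges may leave a node. -/
structure NBP (V : Type) (I : Type) where
  /-- source -/
  src : V
  /-- accepting node -/
  acc : V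
  /-- unlabelled edges -/
  free : V → V → Prop
  /-- edges labelled by a literal -/
  test : V → I → Bool → V → Prop

/-- `P.Path y u v l`: there is a walk from `u` to `v` all of whose labels agree with the input `y`,
and `l` is the list of the variables tested along it, in order and with repetitions. -/
inductive NBP.Path {V I : Type} (P : NBP V I) (y : I → Bool) : V → V → List I → Prop
  | nil (u : V) : NBP.Path P y u u []
  | free {u v w : V} {l : List I} : P.free u v → NBP.Path P y v w l → NBP.Path P y u w l
  | test {u v w : V} {i : I} {l : List I} : P.test u i (y i) v → NBP.Path P y v w l →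
      NBP.Path P y u w (i :: l)

/-- the program computes `f`: exactly the inputs satisfying `f` have an accepting walk -/
def NBP.Computes {V I : Type} (P : NBP V I) (f : (I → Bool) → Prop) : Prop :=
  ∀ y, f y ↔ ∃ l, P.Path y P.src P.acc l

/-- semantic read-once: every walk from the source to the accepting node that is consistent with
some input tests every variable at most once -/
def NBP.SemanticReadOnce {V I : Type} (P : NBP V I) : Prop :=
  ∀ y l, P.Path y P.src P.acc l → l.Nodup

/-- number of coefficients of the polynomial -/
def numCoef (n : ℕ) : ℕ := (2 * n + 2) ^ 2

/-- the value at `x` of the polynomial with coefficients `a`, modulo `p`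
(all numbers given in binary, least significant bit first) -/
def value (n : ℕ) (p : Fin (n + 1) → Bool) (a : Fin (numCoef n) → Fin (n + 1) → Bool)
    (x : Fin n → Bool) : ℕ :=
  (∑ j : Fin (numCoef n), Nat.ofBits (a j) * Nat.ofBits x ^ (j : ℕ)) % Nat.ofBits p

/-- `x` has an even number of ones, and the value of the polynomial has parity `t` -/
def func (n : ℕ) (t : Bool) (p : Fin (n + 1) → Bool) (a : Fin (numCoef n) → Fin (n + 1) → Bool)
    (x : Fin n → Bool) : Prop :=
  Even (Finset.univ.filter (fun i => x i = true)).card ∧ value n p a x % 2 = t.toNat

/-- the variables of the explicit function: the bits of `t`, `p`, `a` and `x` -/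
abbrev Var (n : ℕ) : Type :=
  Unit ⊕ Fin (n + 1) ⊕ (Fin (numCoef n) × Fin (n + 1)) ⊕ Fin n

/-- the explicit function of the bits of `t`, `p`, `a` and `x` -/
def full (n : ℕ) (y : Var n → Bool) : Prop :=
  func n (y (.inl ())) (fun i => y (.inr (.inl i))) (fun j i => y (.inr (.inr (.inl (j, i)))))
    (fun i => y (.inr (.inr (.inr i))))

end Pool.Agent.SemRO
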