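import Pool.Agent.SemRO.Cert

/-! Five-segment certificate systems and rectangle-free sets. -/

namespace Pool.Agent.SemRO

open Finset

variable {n : ℕ}

/-- `z` restricted to the variables in `D` -/
def restr (D : Finset (Fin n)) (z : Fin n → Bool) : Fin n → Option Bool :=
  fun i => if i ∈ D then some (z i) else none

/-- take `u` on `A` and `v` off `A` -/
def mix (A : Finset (Fin n)) (u v : Fin n → Bool) : Fin n → Bool :=
  fun i => if i ∈ A then u i else v i

/-- no `L × L` combinatorial rectangle (for any partition of the variables) inside `F` -/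
def RectFree (F : Set (Fin n → Bool)) (L : ℕ) : Prop :=
  ∀ (A : Finset (Fin n)) (u v : Fin L → Fin n → Bool),
    (∀ i j, i ≠ j → ∃ x ∈ A, u i x ≠ u j x) → (∀ i j, i ≠ j → ∃ x, x ∉ A ∧ v i x ≠ v j x) →
    ∃ i j, mix A (u i) (v j) ∉ F

/-- flipping any variable leaves `F` -/
def Sensitive (F : Set (Fin n → Bool)) : Prop :=
  ∀ z ∈ F, ∀ i, Function.update z i (!z i) ∉ F

lemma sub_restr (D : Finset (Fin n)) (z : Fin n → Bool) : Sub (restr D z) z := by
  intro i b h
  unfold restr at h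
  split_ifs at h
  exact Option.some.inj h

lemma sub_restr_iff (D : Finset (Fin n)) (w z : Fin n → Bool) :
    Sub (restr D w) z ↔ ∀ i ∈ D, z i = w i := by
  constructor
  · intro h i hi
    exact h i (w i) (by simp [restr, hi])
  · intro h i b hb
    unfold restr at hb
    split_ifs at hb with hi
    rw [h i hi]; exact Option.some.inj hb

lemma dom_restr (D : Finset (Fin n)) (z : Fin n → Bool) : dom (restr D z) = D := by
  ext i
  simp [dom, restr]

lemma mem_dom {c : Fin n → Option Bool} {i : Fin n} : i ∈ dom c ↔ c i ≠ none := by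
  simp [dom]

lemma restr_eq_iff (D D' : Finset (Fin n)) (z w : Fin n → Bool) :
    restr D z = restr D' w ↔ D = D' ∧ ∀ i ∈ D, z i = w i := by
  constructor
  · intro h
    have hD : D = D' := by rw [← dom_restr D z, h, dom_restr]
    refine ⟨hD, fun i hi => ?_⟩
    have := congrFun h i
    rw [← hD] at this
    simpa [restr, hi] using this
  · rintro ⟨rfl, h⟩
    funext i
    unfold restr
    split_ifs with hi
    · rw [h i hi]
    · rfl

lemma eq_restr_dom {c : Fin n → Option Bool} {z : Fin n → Bool} (h : Sub c z) :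
    c = restr (dom c) z := by
  funext i
  unfold restr
  cases hc : c i with
  | none =>
    have : i ∉ dom c := by rw [mem_dom, hc]; simp
    simp [this]
  | some b =>
    have : i ∈ dom c := by rw [mem_dom, hc]; simp
    simp [this, h i b hc]

/-- a certificate system on `W` -/
structure Sys (W : Finset (Fin n → Bool)) (a : Fin 5 → (Fin n → Bool) → Fin n → Option Bool)
    (o : ℕ) : Prop where
  sub : ∀ z ∈ W, ∀ b, Sub (a b z) z
  uniq : ∀ z ∈ W, ∀ z' ∈ W, ∀ b, Sub (a b z') z → Sub (a b z) z' → a b z = a b z'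
  closed : ∀ u, (∀ b, ∃ w ∈ W, Sub (a b w) u) → u ∈ W
  cover : ∀ z ∈ W, ∀ i, ∃ b, a b z i ≠ none
  overlap : ∀ z ∈ W, ∑ b, (dom (a b z)).card ≤ n + o

variable (a : Fin 5 → (Fin n → Bool) → Fin n → Option Bool)

/-- union of the domains of a set of blocks -/
def AJ (J : Finset (Fin 5)) (z : Fin n → Bool) : Finset (Fin n) := J.biUnion fun b => dom (a b z)

/-- joint certificate of a set of blocks -/
def cJ (J : Finset (Fin 5)) (z : Fin n → Bool) : Fin n → Option Bool := restr (AJ a J z) z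

variable {a}

lemma mem_AJ {J : Finset (Fin 5)} {z : Fin n → Bool} {i : Fin n} :
    i ∈ AJ a J z ↔ ∃ b ∈ J, a b z i ≠ none := by
  simp [AJ, mem_dom]

variable {W : Finset (Fin n → Bool)} {o : ℕ}

lemma Sys.cJ_agree (h : Sys W a o) {J : Finset (Fin 5)} {z z' : Fin n → Bool} (hz : z ∈ W)
    (hz' : z' ∈ W) (h1 : Sub (cJ a J z') z) (h2 : Sub (cJ a J z) z') :
    ∀ b ∈ J, a b z = a b z' := by
  intro b hb
  apply h.uniq z hz z' hz'
  · have e := eq_restr_dom (h.sub z' hz' b)
    rw [e, sub_restr_iff]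
    intro i hi
    have := (sub_restr_iff _ _ _).mp h1
    exact this i (mem_AJ.mpr ⟨b, hb, mem_dom.mp hi⟩)
  · have e := eq_restr_dom (h.sub z hz b)
    rw [e, sub_restr_iff]
    intro i hi
    have := (sub_restr_iff _ _ _).mp h2
    exact this i (mem_AJ.mpr ⟨b, hb, mem_dom.mp hi⟩)

lemma Sys.cJ_uniq (h : Sys W a o) (J : Finset (Fin 5)) :
    ∀ z ∈ W, ∀ z' ∈ W, Sub (cJ a J z') z → Sub (cJ a J z) z' → cJ a J z = cJ a J z' := by
  intro z hz z' hz' h1 h2
  have h3 := h.cJ_agree hz hz' h1 h2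
  unfold cJ
  rw [restr_eq_iff]
  constructor
  · unfold AJ
    exact Finset.biUnion_congr rfl fun b hb => by rw [h3 b hb]
  · intro i hi
    exact ((sub_restr_iff _ _ _).mp h2 i hi).symm

lemma Sys.cJ_eq_iff (h : Sys W a o) (J : Finset (Fin 5)) {z w : Fin n → Bool} (hz : z ∈ W)
    (hw : w ∈ W) : cJ a J w = cJ a J z ↔ ∀ b ∈ J, a b w = a b z := by
  constructor
  · intro he
    apply h.cJ_agree hw hz
    · rw [← he]; exact sub_restr _ _
    · rw [he]; exact sub_restr _ _
  · intro he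
    unfold cJ
    rw [restr_eq_iff]
    constructor
    · unfold AJ
      exact Finset.biUnion_congr rfl fun b hb => by rw [he b hb]
    · intro i hi
      obtain ⟨b, hb, hi'⟩ := mem_AJ.mp hi
      cases hc : a b w i with
      | none => exact absurd hc hi'
      | some y =>
        have h1 := h.sub w hw b i y hc
        rw [he b hb] at hc
        have h2 := h.sub z hz b i y hc
        rw [h1, h2]

open Classical in
/-- points with the same shape and the same doubly read part -/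
noncomputable def UU (W : Finset (Fin n → Bool)) (a : Fin 5 → (Fin n → Bool) → Fin n → Option Bool)
    (J J' : Finset (Fin 5)) (z : Fin n → Bool) : Finset (Fin n → Bool) :=
  W.filter (fun w => AJ a J w = AJ a J z ∧ AJ a J' w = AJ a J' z ∧
    ∀ i, i ∈ AJ a J z → i ∈ AJ a J' z → w i = z i)

lemma mem_UU {J J' : Finset (Fin 5)} {z w : Fin n → Bool} :
    w ∈ UU W a J J' z ↔ w ∈ W ∧ AJ a J w = AJ a J z ∧ AJ a J' w = AJ a J' z ∧
    ∀ i, i ∈ AJ a J z → i ∈ AJ a J' z → w i = z i := by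
  simp [UU]

lemma UU_comm (J J' : Finset (Fin 5)) (z : Fin n → Bool) : UU W a J J' z = UU W a J' J z := by
  ext w
  rw [mem_UU, mem_UU]
  constructor
  · rintro ⟨h1, h2, h3, h4⟩; exact ⟨h1, h3, h2, fun i hi hi' => h4 i hi' hi⟩
  · rintro ⟨h1, h2, h3, h4⟩; exact ⟨h1, h3, h2, fun i hi hi' => h4 i hi' hi⟩

lemma Sys.mix_mem (h : Sys W a o) {J J' : Finset (Fin 5)} (hJ : ∀ b, b ∈ J ∨ b ∈ J')
    {z w w' : Fin n → Bool} (hw : w ∈ UU W a J J' z) (hw' : w' ∈ UU W a J J' z) :
    mix (AJ a J z) w w' ∈ W := by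
  obtain ⟨w1, w2, w3, w4⟩ := mem_UU.mp hw
  obtain ⟨v1, v2, v3, v4⟩ := mem_UU.mp hw'
  apply h.closed
  intro b
  rcases hJ b with hb | hb
  · refine ⟨w, w1, ?_⟩
    rw [eq_restr_dom (h.sub w w1 b), sub_restr_iff]
    intro i hi
    have : i ∈ AJ a J z := by rw [← w2]; exact mem_AJ.mpr ⟨b, hb, mem_dom.mp hi⟩
    simp [mix, this]
  · refine ⟨w', v1, ?_⟩
    rw [eq_restr_dom (h.sub w' v1 b), sub_restr_iff]
    intro i hi
    have hi' : i ∈ AJ a J' z := by rw [← v3]; exact mem_AJ.mpr ⟨b, hb, mem_dom.mp hi⟩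
    unfold mix
    split_ifs with h1
    · rw [w4 i h1 hi', v4 i h1 hi']
    · rfl

lemma exists_distinct {Ω β : Type*} [DecidableEq β] (S : Finset Ω) (f : Ω → β) (L : ℕ)
    (hL : L ≤ (S.image f).card) : ∃ u : Fin L → Ω, (∀ i, u i ∈ S) ∧ ∀ i j, i ≠ j → f (u i) ≠ f (u j) := by
  classical
  have h1 : Fintype.card (Fin L) ≤ Fintype.card (S.image f) := by simpa using hL
  obtain ⟨e⟩ := Function.Embedding.nonempty_of_card_le h1
  have h2 : ∀ i, ∃ x ∈ S, f x = (e i).val := fun i => Finset.mem_image.mp (e i).property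
  choose u hu1 hu2 using h2
  refine ⟨u, hu1, fun i j hij heq => hij ?_⟩
  apply e.injective
  apply Subtype.ext
  rw [← hu2 i, ← hu2 j, heq]

lemma Sys.rect (h : Sys W a o) {F : Set (Fin n → Bool)} (hF : ∀ z ∈ W, z ∈ F) {L : ℕ}
    (hR : RectFree F L) {J J' : Finset (Fin 5)} (hJ : ∀ b, b ∈ J ∨ b ∈ J') (z : Fin n → Bool) :
    ((UU W a J J' z).image (restr (AJ a J z))).card < L ∨
    ((UU W a J J' z).image (restr (AJ a J z)ᶜ)).card < L := by
  by_contra hcon
  push Not at hcon
  obtain ⟨h1, h2⟩ := hcon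
  obtain ⟨u, hu1, hu2⟩ := exists_distinct _ _ L h1
  obtain ⟨v, hv1, hv2⟩ := exists_distinct _ _ L h2
  obtain ⟨i, j, hij⟩ := hR (AJ a J z) u v
    (by
      intro i j hij
      by_contra hno
      push Not at hno
      exact hu2 i j hij ((restr_eq_iff _ _ _ _).mpr ⟨rfl, hno⟩))
    (by
      intro i j hij
      by_contra hno
      push Not at hno
      exact hv2 i j hij ((restr_eq_iff _ _ _ _).mpr ⟨rfl, fun x hx => hno x (by simpa using hx)⟩))
  exact hij (hF _ (h.mix_mem hJ (hu1 i) (hv1 j)))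

/-- number of small subsets -/
def Nsub (n o : ℕ) : ℕ := (Finset.univ.filter (fun S : Finset (Fin n) => S.card ≤ o)).card

lemma Sys.count_ge (h : Sys W a o) {z : Fin n → Bool} (hz : z ∈ W) (S : Finset (Fin n))
    (hS : ∀ i ∈ S, ∃ b b', b ≠ b' ∧ a b z i ≠ none ∧ a b' z i ≠ none) : S.card ≤ o := by
  classical
  have h1 : ∑ b, (dom (a b z)).card = ∑ i : Fin n, ∑ b : Fin 5, (if a b z i ≠ none then 1 else 0) := by
    rw [Finset.sum_comm]
    refine Finset.sum_congr rfl fun b _ => ?_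
    unfold dom
    rw [Finset.card_filter]
  have h2 : ∀ i : Fin n, 1 + (if i ∈ S then 1 else 0) ≤
      ∑ b : Fin 5, (if a b z i ≠ none then 1 else 0) := by
    intro i
    split_ifs with hi
    · obtain ⟨b, b', hbb, hb, hb'⟩ := hS i hi
      have : ∑ c ∈ ({b, b'} : Finset (Fin 5)), (if a c z i ≠ none then 1 else 0) ≤
          ∑ c : Fin 5, (if a c z i ≠ none then 1 else 0) :=
        Finset.sum_le_sum_of_subset (Finset.subset_univ _)
      rw [Finset.sum_pair hbb, if_pos hb, if_pos hb'] at this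
      exact this
    · obtain ⟨b, hb⟩ := h.cover z hz i
      have : (if a b z i ≠ none then 1 else 0) ≤ ∑ c : Fin 5, (if a c z i ≠ none then 1 else 0) :=
        Finset.single_le_sum (f := fun c => if a c z i ≠ none then 1 else 0)
          (fun _ _ => Nat.zero_le _) (Finset.mem_univ b)
      rw [if_pos hb] at this
      simpa using this
  have h3 := Finset.sum_le_sum (fun i (_ : i ∈ (Finset.univ : Finset (Fin n))) => h2 i)
  rw [Finset.sum_add_distrib, Finset.sum_const, Finset.card_univ, Fintype.card_fin, smul_eq_mul,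
    mul_one, ← Finset.sum_filter, Finset.sum_const, smul_eq_mul, mul_one] at h3
  have h4 := h.overlap z hz
  rw [h1] at h4
  have h5 : (Finset.univ.filter (fun i => i ∈ S)) = S := by ext; simp
  rw [h5] at h3
  omega

lemma Sys.compl_sub (h : Sys W a o) {J J' : Finset (Fin 5)} (hJ : ∀ b, b ∈ J ∨ b ∈ J')
    {z : Fin n → Bool} (hz : z ∈ W) {i : Fin n} (hi : i ∉ AJ a J z) : i ∈ AJ a J' z := by
  obtain ⟨b, hb⟩ := h.cover z hz i
  rcases hJ b with h1 | h1
  · exact absurd (mem_AJ.mpr ⟨b, h1, hb⟩) hi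
  · exact mem_AJ.mpr ⟨b, h1, hb⟩

open Classical in
lemma Sys.fibre_bound (h : Sys W a o) {J J' : Finset (Fin 5)} (hJ : ∀ b, b ∈ J ∨ b ∈ J')
    (hdisj : ∀ b, b ∈ J → b ∉ J') {L : ℕ}
    (P : Finset (Fin n → Bool)) (hPW : P ⊆ W)
    (hP : ∀ z ∈ P, ((UU W a J J' z).image (restr (AJ a J z)ᶜ)).card < L) :
    ∀ z ∈ P, (fib P (cJ a J) z).card ≤ L * Nsub n o := by
  intro z hz
  have hmaps : ∀ w ∈ fib P (cJ a J) z, AJ a J w ∩ AJ a J' w ∈
      (Finset.univ.filter (fun S : Finset (Fin n) => S.card ≤ o)) := by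
    intro w hw
    rw [Finset.mem_filter]
    refine ⟨Finset.mem_univ _, ?_⟩
    apply h.count_ge (hPW (mem_fib.mp hw).1)
    intro i hi
    obtain ⟨h1, h2⟩ := Finset.mem_inter.mp hi
    obtain ⟨b, hb, hb'⟩ := mem_AJ.mp h1
    obtain ⟨c, hc, hc'⟩ := mem_AJ.mp h2
    exact ⟨b, c, fun e => hdisj b hb (e ▸ hc), hb', hc'⟩
  unfold Nsub
  refine Finset.card_le_mul_card_image_of_maps_to hmaps L ?_
  intro S _
  rcases (Finset.filter (fun w => AJ a J w ∩ AJ a J' w = S) (fib P (cJ a J) z)).eq_empty_or_nonempty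
    with he | ⟨w0, hw0⟩
  · rw [he]; simp
  obtain ⟨hw0f, hw0S⟩ := Finset.mem_filter.mp hw0
  obtain ⟨hw0P, hw0c⟩ := mem_fib.mp hw0f
  have key : ∀ w, w ∈ Finset.filter (fun w => AJ a J w ∩ AJ a J' w = S) (fib P (cJ a J) z) →
      w ∈ UU W a J J' w0 ∧ ∀ i ∈ AJ a J w0, w i = w0 i := by
    intro w hw
    obtain ⟨hwf, hwS⟩ := Finset.mem_filter.mp hw
    obtain ⟨hwP, hwc⟩ := mem_fib.mp hwf
    have hcc : cJ a J w0 = cJ a J w := hw0c.trans hwc.symm
    obtain ⟨e1, e2⟩ := (restr_eq_iff _ _ _ _).mp hcc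
    have e3 : AJ a J' w = AJ a J' w0 := by
      ext i
      by_cases hi : i ∈ AJ a J w0
      · have hi' : i ∈ AJ a J w := by rw [← e1]; exact hi
        have : i ∈ S ↔ i ∈ AJ a J' w := by rw [← hwS, Finset.mem_inter]; tauto
        have h2 : i ∈ S ↔ i ∈ AJ a J' w0 := by rw [← hw0S, Finset.mem_inter]; tauto
        rw [← this, h2]
      · have hi' : i ∉ AJ a J w := by rw [← e1]; exact hi
        exact iff_of_true (h.compl_sub hJ (hPW hwP) hi') (h.compl_sub hJ (hPW hw0P) hi)
    refine ⟨mem_UU.mpr ⟨hPW hwP, e1.symm, e3, fun i hi _ => (e2 i hi).symm⟩,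
      fun i hi => (e2 i hi).symm⟩
  have hinj : Set.InjOn (restr (AJ a J w0)ᶜ)
      (Finset.filter (fun w => AJ a J w ∩ AJ a J' w = S) (fib P (cJ a J) z) : Set (Fin n → Bool)) := by
    intro w hw w' hw' heq
    have k1 := (key w hw).2
    have k2 := (key w' hw').2
    have k3 := ((restr_eq_iff _ _ _ _).mp heq).2
    funext i
    by_cases hi : i ∈ AJ a J w0
    · rw [k1 i hi, k2 i hi]
    · exact k3 i (Finset.mem_compl.mpr hi)
  rw [← Finset.card_image_of_injOn hinj]
  refine le_trans (Finset.card_le_card ?_) (hP w0 hw0P).le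
  intro y hy
  obtain ⟨w, hw, rfl⟩ := Finset.mem_image.mp hy
  exact Finset.mem_image_of_mem _ (key w hw).1

lemma restr_image_card_le {D D' : Finset (Fin n)} (hDD : D' ⊆ D) (S : Finset (Fin n → Bool)) :
    (S.image (restr D')).card ≤ (S.image (restr D)).card := by
  classical
  have : S.image (restr D') = (S.image (restr D)).image
      (fun r => fun i => if i ∈ D' then r i else none) := by
    rw [Finset.image_image]
    apply Finset.image_congr
    intro z _
    funext i
    simp only [Function.comp, restr]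
    by_cases hi : i ∈ D'
    · simp [hi, hDD hi]
    · simp [hi]
  rw [this]
  exact Finset.card_image_le

end Pool.Agent.SemRO
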