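import Pool.Agent.SemRO.T

/-! Entropy of functions on a uniformly distributed point of a finite set (un-normalised). -/

namespace Pool.Agent.SemRO

open Finset

variable {Ω : Type*} {β γ : Type*}

open Classical in
/-- the fibre of `f` through `z`, inside `G` -/
noncomputable def fib (G : Finset Ω) (f : Ω → β) (z : Ω) : Finset Ω :=
  G.filter (fun w => f w = f z)

lemma mem_fib {G : Finset Ω} {f : Ω → β} {z w : Ω} : w ∈ fib G f z ↔ w ∈ G ∧ f w = f z := by
  classical
  simp [fib]

lemma self_mem_fib {G : Finset Ω} {f : Ω → β} {z : Ω} (hz : z ∈ G) : z ∈ fib G f z :=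
  mem_fib.mpr ⟨hz, rfl⟩

lemma fib_pos {G : Finset Ω} {f : Ω → β} {z : Ω} (hz : z ∈ G) : 0 < (fib G f z).card :=
  Finset.card_pos.mpr ⟨z, self_mem_fib hz⟩

lemma fib_pos' {G : Finset Ω} {f : Ω → β} {z : Ω} (hz : z ∈ G) : (0 : ℝ) < (fib G f z).card :=
  Nat.cast_pos.mpr (fib_pos hz)

lemma fib_card_le {G : Finset Ω} {f : Ω → β} {z : Ω} : (fib G f z).card ≤ G.card := by
  classical
  exact Finset.card_le_card (Finset.filter_subset _ _)

lemma fib_congr {G : Finset Ω} {f : Ω → β} {z w : Ω} (h : f w = f z) : fib G f w = fib G f z := by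
  ext x; simp [mem_fib, h]

/-- `|G|` times the entropy of `f` on uniform `z ∈ G`. -/
noncomputable def E (G : Finset Ω) (f : Ω → β) : ℝ :=
  ∑ z ∈ G, (Real.log G.card - Real.log (fib G f z).card)

/-- Gibbs' inequality in the form used everywhere. -/
lemma gibbs (G : Finset Ω) (t : Ω → ℝ) (ht : ∀ z ∈ G, 0 < t z) (hsum : ∑ z ∈ G, t z ≤ G.card) :
    ∑ z ∈ G, Real.log (t z) ≤ 0 := by
  calc ∑ z ∈ G, Real.log (t z) ≤ ∑ z ∈ G, (t z - 1) :=
        Finset.sum_le_sum fun z hz => Real.log_le_sub_one_of_pos (ht z hz)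
    _ = ∑ z ∈ G, t z - G.card := by simp [Finset.sum_sub_distrib]
    _ ≤ 0 := by linarith

lemma fib_card_eq [DecidableEq β] (G : Finset Ω) (f : Ω → β) (z : Ω) :
    (G.filter (fun w => f w = f z)).card = (fib G f z).card := by
  unfold fib
  congr

/-- summing over fibres -/
lemma sum_div_fib [DecidableEq β] (G : Finset Ω) (f : Ω → β) (F : β → ℝ) :
    ∑ z ∈ G, F (f z) / (fib G f z).card = ∑ y ∈ G.image f, F y := by
  rw [← Finset.sum_fiberwise_of_maps_to (s := G) (t := G.image f) (g := f)
    (fun z hz => Finset.mem_image_of_mem f hz)]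
  refine Finset.sum_congr rfl fun y hy => ?_
  obtain ⟨z, hz, rfl⟩ := Finset.mem_image.mp hy
  have : ∀ w ∈ G.filter (fun w => f w = f z), F (f w) / ((fib G f w).card : ℝ) =
      F (f z) / ((fib G f z).card : ℝ) := by
    intro w hw
    have h := (Finset.mem_filter.mp hw).2
    rw [fib_congr h, h]
  rw [Finset.sum_congr rfl this, Finset.sum_const, nsmul_eq_mul]
  have hc : ((G.filter (fun w => f w = f z)).card : ℝ) = (fib G f z).card := by
    rw [fib_card_eq]
  rw [hc, mul_div_cancel₀ _ (fib_pos' hz).ne']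

/-- decomposing a sum over the fibres of `u` : general principle -/
lemma sum_le_of_fib (G : Finset Ω) (u : Ω → β) (F F' : Ω → ℝ)
    (h : ∀ z ∈ G, ∑ w ∈ fib G u z, F w ≤ ∑ w ∈ fib G u z, F' w) :
    ∑ z ∈ G, F z ≤ ∑ z ∈ G, F' z := by
  classical
  rw [← Finset.sum_fiberwise_of_maps_to (s := G) (t := G.image u) (g := u)
    (fun z hz => Finset.mem_image_of_mem u hz),
    ← Finset.sum_fiberwise_of_maps_to (s := G) (t := G.image u) (g := u)
    (fun z hz => Finset.mem_image_of_mem u hz)]
  refine Finset.sum_le_sum fun y hy => ?_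
  obtain ⟨z, hz, rfl⟩ := Finset.mem_image.mp hy
  have := h z hz
  unfold fib at this
  exact this

/-- `fib` inside a fibre -/
lemma fib_fib (G : Finset Ω) (u : Ω → β) (f : Ω → γ) {z w : Ω} (hw : w ∈ fib G u z) :
    fib (fib G u z) f w = fib G (fun x => (u x, f x)) w := by
  ext x
  have := (mem_fib.mp hw).2
  simp only [mem_fib, Prod.mk.injEq]
  constructor
  · rintro ⟨⟨h1, h2⟩, h3⟩
    exact ⟨h1, h2.trans this.symm, h3⟩
  · rintro ⟨h1, h2, h3⟩
    exact ⟨⟨h1, h2.trans this⟩, h3⟩

lemma fib_eq_of_iff (G : Finset Ω) (f : Ω → β) (g : Ω → γ) {z : Ω}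
    (h : ∀ w ∈ G, f w = f z ↔ g w = g z) : fib G f z = fib G g z := by
  ext x
  simp only [mem_fib]
  constructor
  · rintro ⟨h1, h2⟩; exact ⟨h1, (h x h1).mp h2⟩
  · rintro ⟨h1, h2⟩; exact ⟨h1, (h x h1).mpr h2⟩

lemma E_congr (G : Finset Ω) (f : Ω → β) (g : Ω → γ)
    (h : ∀ z ∈ G, ∀ w ∈ G, f w = f z ↔ g w = g z) : E G f = E G g := by
  unfold E
  refine Finset.sum_congr rfl fun z hz => ?_
  rw [fib_eq_of_iff G f g (h z hz)]

/-- monotonicity: a function of `f` has smaller entropy -/
lemma E_mono (G : Finset Ω) (f : Ω → β) (g : Ω → γ)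
    (h : ∀ z ∈ G, ∀ w ∈ G, f w = f z → g w = g z) : E G g ≤ E G f := by
  unfold E
  refine Finset.sum_le_sum fun z hz => ?_
  have : fib G f z ⊆ fib G g z := by
    intro x hx
    exact mem_fib.mpr ⟨(mem_fib.mp hx).1, h z hz x (mem_fib.mp hx).1 (mem_fib.mp hx).2⟩
  have h1 : ((fib G f z).card : ℝ) ≤ (fib G g z).card := by exact_mod_cast Finset.card_le_card this
  have := Real.log_le_log (fib_pos' hz) h1
  linarith

/-- all fibres are small: large entropy -/
lemma E_ge (G : Finset Ω) (f : Ω → β) (M : ℝ) (hM : ∀ z ∈ G, ((fib G f z).card : ℝ) ≤ M) :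
    G.card * (Real.log G.card - Real.log M) ≤ E G f := by
  unfold E
  rw [← nsmul_eq_mul, ← Finset.sum_const]
  refine Finset.sum_le_sum fun z hz => ?_
  have := Real.log_le_log (fib_pos' hz) (hM z hz)
  linarith

/-- subadditivity -/
lemma E_pair_le (G : Finset Ω) (f : Ω → β) (g : Ω → γ) :
    E G (fun z => (f z, g z)) ≤ E G f + E G g := by
  classical
  rcases G.eq_empty_or_nonempty with rfl | hne
  · simp [E]
  have hG : (0 : ℝ) < G.card := Nat.cast_pos.mpr (Finset.card_pos.mpr hne)
  let t : Ω → ℝ := fun z => ((fib G f z).card * (fib G g z).card : ℝ) /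
    (G.card * (fib G (fun z => (f z, g z)) z).card)
  have ht : ∀ z ∈ G, 0 < t z := fun z hz =>
    div_pos (mul_pos (fib_pos' hz) (fib_pos' hz)) (mul_pos hG (fib_pos' hz))
  have hsum : ∑ z ∈ G, t z ≤ G.card := by
    let F : β × γ → ℝ := fun y => ((G.filter (fun w => f w = y.1)).card : ℝ) *
      ((G.filter (fun w => g w = y.2)).card : ℝ) / G.card
    have h1 : ∀ z ∈ G, t z = F (f z, g z) / (fib G (fun z => (f z, g z)) z).card := by
      intro z hz
      have e1 : ((fib G f z).card : ℝ) = (G.filter (fun w => f w = f z)).card := by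
        unfold fib; congr
      have e2 : ((fib G g z).card : ℝ) = (G.filter (fun w => g w = g z)).card := by
        unfold fib; congr
      simp only [t, F]
      rw [← e1, ← e2, div_div]
    rw [Finset.sum_congr rfl h1, sum_div_fib G (fun z => (f z, g z)) F]
    calc ∑ y ∈ G.image (fun z => (f z, g z)), F y
        ≤ ∑ y ∈ (G.image f) ×ˢ (G.image g), F y := by
          apply Finset.sum_le_sum_of_subset_of_nonneg
          · intro y hy
            obtain ⟨z, hz, rfl⟩ := Finset.mem_image.mp hy
            exact Finset.mem_product.mpr ⟨Finset.mem_image_of_mem f hz, Finset.mem_image_of_mem g hz⟩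
          · intro y _ _
            positivity
      _ = (∑ y ∈ G.image f, ((G.filter (fun w => f w = y)).card : ℝ)) *
          (∑ y ∈ G.image g, ((G.filter (fun w => g w = y)).card : ℝ)) / G.card := by
          rw [Finset.sum_product, Finset.sum_mul_sum, Finset.sum_div]
          refine Finset.sum_congr rfl fun y _ => ?_
          rw [Finset.sum_div]
      _ = G.card := by
          have e1 : (∑ y ∈ G.image f, ((G.filter (fun w => f w = y)).card : ℝ)) = G.card := by
            rw [← Nat.cast_sum]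
            congr 1
            exact (Finset.card_eq_sum_card_fiberwise (fun z hz => Finset.mem_image_of_mem f hz)).symm
          have e2 : (∑ y ∈ G.image g, ((G.filter (fun w => g w = y)).card : ℝ)) = G.card := by
            rw [← Nat.cast_sum]
            congr 1
            exact (Finset.card_eq_sum_card_fiberwise (fun z hz => Finset.mem_image_of_mem g hz)).symm
          rw [e1, e2]; field_simp
  have hg := gibbs G t ht hsum
  have hlog : ∀ z ∈ G, Real.log (t z) = Real.log (fib G f z).card + Real.log (fib G g z).card -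
      (Real.log G.card + Real.log (fib G (fun z => (f z, g z)) z).card) := by
    intro z hz
    simp only [t]
    rw [Real.log_div (mul_pos (fib_pos' hz) (fib_pos' hz)).ne' (mul_pos hG (fib_pos' hz)).ne',
      Real.log_mul (fib_pos' hz).ne' (fib_pos' hz).ne', Real.log_mul hG.ne' (fib_pos' hz).ne']
  rw [Finset.sum_congr rfl hlog] at hg
  unfold E
  rw [← Finset.sum_add_distrib, ← sub_nonpos, ← Finset.sum_sub_distrib]
  refine le_trans (le_of_eq ?_) hg
  refine Finset.sum_congr rfl fun z _ => ?_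
  ring

end Pool.Agent.SemRO
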