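import Pool.Agent.SemRO.Count
import Pool.Agent.SemRO.Defs

/-! Nondeterministic branching programs. -/

namespace Pool.Agent.SemRO

open Finset

variable {V : Type} {n : ℕ}

/-- reachability using only tests implied by the sub-assignment `c` -/
inductive PReach (P : NBP V (Fin n)) (c : Fin n → Option Bool) : V → V → Prop
  | nil (u : V) : PReach P c u u
  | free {u v w : V} : P.free u v → PReach P c v w → PReach P c u w
  | test {u v w : V} {i : Fin n} {b : Bool} : c i = some b → P.test u i b v → PReach P c v w →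
      PReach P c u w

lemma PReach.path {P : NBP V (Fin n)} {c : Fin n → Option Bool} {u v : V} (h : PReach P c u v)
    {z : Fin n → Bool} (hz : Sub c z) : ∃ l, P.Path z u v l := by
  induction h with
  | nil u => exact ⟨[], .nil u⟩
  | free h1 _ ih => obtain ⟨l, hl⟩ := ih; exact ⟨l, .free h1 hl⟩
  | @test u v w i b hc h1 _ ih =>
    obtain ⟨l, hl⟩ := ih
    refine ⟨i :: l, .test ?_ hl⟩
    rw [hz i b hc]; exact h1

lemma Path.trans {I : Type} {P : NBP V I} {z : I → Bool} {u v w : V} {l l' : List I}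
    (h1 : P.Path z u v l) (h2 : P.Path z v w l') : P.Path z u w (l ++ l') := by
  induction h1 with
  | nil u => exact h2
  | free h _ ih => exact .free h (ih h2)
  | test h _ ih => exact .test h (ih h2)

lemma Path.preach {P : NBP V (Fin n)} {z : Fin n → Bool} {u v : V} {l : List (Fin n)}
    (h : P.Path z u v l) (D : Finset (Fin n)) (hD : ∀ i ∈ l, i ∈ D) : PReach P (restr D z) u v := by
  induction h with
  | nil u => exact .nil u
  | free h _ ih => exact .free h (ih hD)
  | @test u v w i l h _ ih =>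
    refine .test (b := z i) ?_ h (ih fun j hj => hD j (List.mem_cons_of_mem _ hj))
    simp [restr, hD i List.mem_cons_self]

lemma Path.split {I : Type} {P : NBP V I} {z : I → Bool} {u v : V} {l : List I}
    (h : P.Path z u v l) : ∀ k, ∃ m, P.Path z u m (l.take k) ∧ P.Path z m v (l.drop k) := by
  induction h with
  | nil u => intro k; exact ⟨u, by simpa using .nil u, by simpa using .nil u⟩
  | free h _ ih =>
    intro k
    obtain ⟨m, h1, h2⟩ := ih k
    exact ⟨m, .free h h1, h2⟩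
  | @test u v w i l h hp ih =>
    intro k
    cases k with
    | zero => exact ⟨u, by simpa using .nil u, by simpa using .test h hp⟩
    | succ k =>
      obtain ⟨m, h1, h2⟩ := ih k
      exact ⟨m, by simpa using .test h h1, by simpa using h2⟩

/-- the five families attached to four cut nodes -/
def Fam (P : NBP V (Fin n)) (A e : ℕ) (c : Fin 4 → V) : Fin 5 → Set (Fin n → Option Bool) :=
  ![{r | (dom r).card ≤ A ∧ PReach P r P.src (c 0)},
    {r | (dom r).card ≤ A ∧ PReach P r (c 0) (c 1)},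
    {r | (dom r).card ≤ A ∧ PReach P r (c 1) (c 2)},
    {r | (dom r).card ≤ A ∧ PReach P r (c 2) (c 3)},
    {r | (dom r).card ≤ e ∧ PReach P r (c 3) P.acc}]

lemma good_fam_accepts (P : NBP V (Fin n)) (A e : ℕ) (c : Fin 4 → V) {z : Fin n → Bool}
    (hz : z ∈ Good (Fam P A e c)) : ∃ l, P.Path z P.src P.acc l := by
  obtain ⟨r0, ⟨_, h0⟩, s0⟩ := hz 0
  obtain ⟨r1, ⟨_, h1⟩, s1⟩ := hz 1
  obtain ⟨r2, ⟨_, h2⟩, s2⟩ := hz 2
  obtain ⟨r3, ⟨_, h3⟩, s3⟩ := hz 3
  obtain ⟨r4, ⟨_, h4⟩, s4⟩ := hz 4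
  obtain ⟨l0, p0⟩ := PReach.path h0 s0
  obtain ⟨l1, p1⟩ := PReach.path h1 s1
  obtain ⟨l2, p2⟩ := PReach.path h2 s2
  obtain ⟨l3, p3⟩ := PReach.path h3 s3
  obtain ⟨l4, p4⟩ := PReach.path h4 s4
  exact ⟨_, Path.trans p0 (Path.trans p1 (Path.trans p2 (Path.trans p3 p4)))⟩

lemma accepts_good_fam (P : NBP V (Fin n)) (A e : ℕ) {z : Fin n → Bool} {l : List (Fin n)}
    (hp : P.Path z P.src P.acc l) (hl : l.length ≤ 4 * A + e) :
    ∃ c : Fin 4 → V, z ∈ Good (Fam P A e c) := by
  classical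
  have mk : ∀ {u v : V} {l' : List (Fin n)} (k : ℕ), P.Path z u v l' → l'.length ≤ k →
      (dom (restr l'.toFinset z)).card ≤ k ∧ PReach P (restr l'.toFinset z) u v := by
    intro u v l' k hp' hk
    refine ⟨?_, Path.preach hp' _ fun i hi => List.mem_toFinset.mpr hi⟩
    rw [dom_restr]
    exact (List.toFinset_card_le l').trans hk
  obtain ⟨m0, q0, r0⟩ := Path.split hp A
  obtain ⟨m1, q1, r1⟩ := Path.split r0 A
  obtain ⟨m2, q2, r2⟩ := Path.split r1 A
  obtain ⟨m3, q3, r3⟩ := Path.split r2 A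
  have l0 : (l.take A).length ≤ A := by simp
  have l1 : ((l.drop A).take A).length ≤ A := by simp
  have l2 : (((l.drop A).drop A).take A).length ≤ A := by simp
  have l3 : ((((l.drop A).drop A).drop A).take A).length ≤ A := by simp
  have l4 : ((((l.drop A).drop A).drop A).drop A).length ≤ e := by
    simp only [List.length_drop]; omega
  refine ⟨![m0, m1, m2, m3], fun b => ?_⟩
  fin_cases b
  · exact ⟨_, mk A q0 l0, sub_restr _ _⟩
  · exact ⟨_, mk A q1 l1, sub_restr _ _⟩
  · exact ⟨_, mk A q2 l2, sub_restr _ _⟩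
  · exact ⟨_, mk A q3 l3, sub_restr _ _⟩
  · exact ⟨_, mk e r3 l4, sub_restr _ _⟩

lemma Nsub_bound (n o : ℕ) : Real.log (Nsub n o) ≤ n * (1 / 2 ^ 17) + o * (17 * Real.log 2) := by
  classical
  have hpos : 0 < Nsub n o := by
    unfold Nsub
    exact Finset.card_pos.mpr ⟨∅, by simp⟩
  have h1 : (Nsub n o : ℝ) * (1 / 2 ^ 17) ^ o ≤ (1 + 1 / 2 ^ 17) ^ n := by
    calc (Nsub n o : ℝ) * (1 / 2 ^ 17) ^ o
        = ∑ S ∈ (Finset.univ.filter (fun S : Finset (Fin n) => S.card ≤ o)), (1 / 2 ^ 17 : ℝ) ^ o := by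
          rw [Finset.sum_const, nsmul_eq_mul]; rfl
      _ ≤ ∑ S ∈ (Finset.univ.filter (fun S : Finset (Fin n) => S.card ≤ o)), (1 / 2 ^ 17 : ℝ) ^ S.card := by
          refine Finset.sum_le_sum fun S hS => ?_
          exact pow_le_pow_of_le_one (by norm_num) (by norm_num) (Finset.mem_filter.mp hS).2
      _ ≤ ∑ S : Finset (Fin n), (1 / 2 ^ 17 : ℝ) ^ S.card :=
          Finset.sum_le_sum_of_subset_of_nonneg (Finset.subset_univ _) (fun _ _ _ => by positivity)
      _ = (1 + 1 / 2 ^ 17) ^ n := by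
          have := Fintype.sum_pow_mul_eq_add_pow (Fin n) (1 / 2 ^ 17 : ℝ) 1
          simp only [one_pow, mul_one, Fintype.card_fin] at this
          rw [this, add_comm]
  have hposr : (0 : ℝ) < Nsub n o := Nat.cast_pos.mpr hpos
  have h2 := Real.log_le_log (by positivity) h1
  rw [Real.log_mul hposr.ne' (by positivity), Real.log_pow, Real.log_pow, one_div, Real.log_inv,
    Real.log_pow] at h2
  have h3 : Real.log (1 + (2 ^ 17 : ℝ)⁻¹) ≤ (2 ^ 17 : ℝ)⁻¹ := by
    have := Real.log_le_sub_one_of_pos (show (0 : ℝ) < 1 + (2 ^ 17 : ℝ)⁻¹ by positivity)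
    linarith
  have h4 : (n : ℝ) * Real.log (1 + (2 ^ 17 : ℝ)⁻¹) ≤ n * (2 ^ 17 : ℝ)⁻¹ :=
    mul_le_mul_of_nonneg_left h3 (Nat.cast_nonneg _)
  rw [one_div]
  push_cast at h2
  linarith

lemma logM_bound (hn : 10 ^ 12 ≤ n) {L : ℕ} (hL : 0 < L) (hLn : L ≤ 2 * n + 2) (o : ℕ)
    (ho : (o : ℝ) ≤ 1 / 1000000 * n) :
    0 < L * Nsub n o ∧ Real.log ((L * Nsub n o : ℕ) : ℝ) ≤ 1 / 20000 * n := by
  have hn' : (10 : ℝ) ^ 12 ≤ n := by exact_mod_cast hn
  have hnpos : (0 : ℝ) < n := by linarith [show (0 : ℝ) < 10 ^ 12 by norm_num]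
  have hN : 0 < Nsub n o := by
    unfold Nsub
    exact Finset.card_pos.mpr ⟨∅, by simp⟩
  refine ⟨Nat.mul_pos hL hN, ?_⟩
  have hLr : (0 : ℝ) < L := Nat.cast_pos.mpr hL
  have hNr : (0 : ℝ) < Nsub n o := Nat.cast_pos.mpr hN
  rw [Nat.cast_mul, Real.log_mul hLr.ne' hNr.ne']
  have h1 := Nsub_bound n o
  have h2 : Real.log L ≤ 2e-5 * n := by
    have h3 : (L : ℝ) ≤ (1e-5 * n) ^ 2 := by
      have : (L : ℝ) ≤ 2 * n + 2 := by exact_mod_cast hLn
      nlinarith
    have h4 := Real.log_le_log hLr h3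
    rw [Real.log_pow] at h4
    have h5 : Real.log (1e-5 * (n : ℝ)) ≤ 1e-5 * n - 1 := Real.log_le_sub_one_of_pos (by positivity)
    push_cast at h4
    linarith
  have l2 := log2_hi
  have h6 : (o : ℝ) * (17 * Real.log 2) ≤ (1 / 1000000 * n) * (17 * 0.6932) := by
    apply mul_le_mul ho (by linarith) (by have := log2_lo; positivity) (by positivity)
  have h7 : (n : ℝ) * (1 / 2 ^ 17) ≤ n * 7.63e-6 := by
    apply mul_le_mul_of_nonneg_left (by norm_num) hnpos.le
  linarith

open Classical in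
/-- lower bound for a fixed sensitive rectangle-free function of large density -/
theorem nbp_lower [Fintype V] (hn : 10 ^ 12 ≤ n) (P : NBP V (Fin n)) (F : Set (Fin n → Bool))
    (hP : P.Computes (fun z => z ∈ F)) (hsens : Sensitive F) {L : ℕ} (hL : 0 < L) (hR : RectFree F L)
    (hLn : L ≤ 2 * n + 2)
    (hF : (2 : ℝ) ^ n / 4 ≤ ((Finset.univ.filter (fun z => z ∈ F)).card : ℕ))
    (htime : ∀ z ∈ F, ∃ l, P.Path z P.src P.acc l ∧ (l.length : ℝ) ≤ (1 + 1 / 10 ^ 6) * n) :
    (2 : ℝ) ^ ((n : ℝ) / 10 ^ 9) ≤ Fintype.card V := by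
  have hn' : (10 : ℝ) ^ 12 ≤ n := by exact_mod_cast hn
  have hnpos : (0 : ℝ) < n := by linarith [show (0 : ℝ) < 10 ^ 12 by norm_num]
  -- parameters
  obtain ⟨A, hA⟩ : ∃ A, A = 1999 * n / 8000 := ⟨_, rfl⟩
  obtain ⟨o, ho⟩ : ∃ o, o = n / 1000000 := ⟨_, rfl⟩
  obtain ⟨e, he⟩ : ∃ e, e = n + o - 4 * A := ⟨_, rfl⟩
  have hAe : 4 * A + e = n + o := by omega
  have hAr : (A : ℝ) ≤ 1999 / 8000 * n := by
    have : 8000 * A ≤ 1999 * n := by omega
    have : (8000 : ℝ) * A ≤ 1999 * n := by exact_mod_cast this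
    linarith
  have hAr' : (1999 : ℝ) / 8000 * n - 1 ≤ A := by
    have : 1999 * n ≤ 8000 * A + 8000 := by omega
    have : (1999 : ℝ) * n ≤ 8000 * A + 8000 := by exact_mod_cast this
    linarith
  have hor : (o : ℝ) ≤ 1 / 1000000 * n := by
    have : 1000000 * o ≤ n := by omega
    have : (1000000 : ℝ) * o ≤ n := by exact_mod_cast this
    linarith
  have her : (e : ℝ) ≤ 11 / 20000 * n := by
    have : (4 : ℝ) * A + e = n + o := by exact_mod_cast hAe
    linarith
  obtain ⟨hLM, hM⟩ := logM_bound hn hL hLn o hor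
  -- each choice of cut nodes certifies few points
  have hcut : ∀ c : Fin 4 → V, (((Finset.univ.filter (fun z => z ∈ Good (Fam P A e c))).card : ℕ) : ℝ) ≤
      Real.exp (n * Real.log 2 - 3.75e-9 * n) := by
    intro c
    refine count_bound hn (Fam P A e c) F hsens hR ?_ A e o hAe ?_ ?_ hAr her hor hLM hM
    · intro z hz
      exact (hP z).mpr (good_fam_accepts P A e c hz)
    · intro b hb r hr
      fin_cases b
      · exact hr.1
      · exact hr.1
      · exact hr.1
      · exact hr.1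
      · exact absurd rfl hb
    · intro r hr
      exact hr.1
  have hsub : (Finset.univ.filter (fun z => z ∈ F)) ⊆
      (Finset.univ : Finset (Fin 4 → V)).biUnion
        (fun c => Finset.univ.filter (fun z => z ∈ Good (Fam P A e c))) := by
    intro z hz
    obtain ⟨l, hl1, hl2⟩ := htime z (Finset.mem_filter.mp hz).2
    have hlen : l.length ≤ 4 * A + e := by
      rw [hAe]
      have h1 : (l.length : ℝ) < n + o + 1 := by
        have h2 : n < 1000000 * (o + 1) := by omega
        have h3 : (n : ℝ) < 1000000 * (o + 1) := by exact_mod_cast h2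
        linarith
      have h2 : l.length < n + o + 1 := by exact_mod_cast h1
      omega
    obtain ⟨c, hc⟩ := accepts_good_fam P A e hl1 hlen
    exact Finset.mem_biUnion.mpr ⟨c, Finset.mem_univ _, Finset.mem_filter.mpr ⟨Finset.mem_univ _, hc⟩⟩
  have hcard : (((Finset.univ.filter (fun z => z ∈ F)).card : ℕ) : ℝ) ≤
      (Fintype.card V : ℝ) ^ 4 * Real.exp (n * Real.log 2 - 3.75e-9 * n) := by
    calc (((Finset.univ.filter (fun z => z ∈ F)).card : ℕ) : ℝ)
        ≤ ((∑ c : Fin 4 → V, (Finset.univ.filter (fun z => z ∈ Good (Fam P A e c))).card : ℕ) : ℝ) := by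
          exact_mod_cast (Finset.card_le_card hsub).trans Finset.card_biUnion_le
      _ = ∑ c : Fin 4 → V, (((Finset.univ.filter (fun z => z ∈ Good (Fam P A e c))).card : ℕ) : ℝ) := by
          push_cast; rfl
      _ ≤ ∑ c : Fin 4 → V, Real.exp (n * Real.log 2 - 3.75e-9 * n) := Finset.sum_le_sum fun c _ => hcut c
      _ = _ := by
          rw [Finset.sum_const, Finset.card_univ, Fintype.card_fun, Fintype.card_fin, nsmul_eq_mul]
          push_cast; rfl
  have hall := hF.trans hcard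
  have hVpos : (0 : ℝ) < Fintype.card V := by
    have : 0 < Fintype.card V := Fintype.card_pos_iff.mpr ⟨P.src⟩
    exact_mod_cast this
  have hlog := Real.log_le_log (by positivity) hall
  rw [Real.log_div (by positivity) (by norm_num), Real.log_pow,
    Real.log_mul (by positivity) (Real.exp_pos _).ne', Real.log_exp, Real.log_pow,
    show (4 : ℝ) = 2 ^ 2 by norm_num, Real.log_pow] at hlog
  push_cast at hlog
  have l1 := log2_lo
  have l2 := log2_hi
  have hfinal : (n : ℝ) / 10 ^ 9 * Real.log 2 ≤ Real.log (Fintype.card V) := by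
    have h3 : (n : ℝ) * Real.log 2 ≤ n * 0.6932 := mul_le_mul_of_nonneg_left l2.le hnpos.le
    linarith
  rw [Real.rpow_def_of_pos (by norm_num)]
  rw [← Real.exp_log hVpos]
  apply Real.exp_le_exp.mpr
  linarith

end Pool.Agent.SemRO
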