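import Pool.Agent.SemRO.Chain2

/-! Entropy form of the key inequality. -/

namespace Pool.Agent.SemRO

open Finset

variable {n : ℕ}

lemma T_sum (s : ℝ) (hs0 : 0 < s) (hs1 : s ≤ 1) (G : Finset (Fin n → Bool))
    (c : (Fin n → Bool) → Fin n → Option Bool) (hsub : ∀ z ∈ G, Sub (c z) z)
    (hD : ∀ z ∈ G, ∀ z' ∈ G, Sub (c z') z → Sub (c z) z' → c z = c z') :
    ∑ k ∈ G.image c, ((2 : ℝ) ^ s - 1) ^ (dom k).card *
      (((G.filter (fun z => c z = k)).card : ℝ) / 2 ^ n) ^ s ≤ 1 := by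
  apply T_family s hs0 hs1 n (G.image c) (fun k => k) (fun k => G.filter (fun z => c z = k))
  · intro k _ z hz
    obtain ⟨h1, h2⟩ := Finset.mem_filter.mp hz
    rw [← h2]; exact hsub z h1
  · intro k _ k' _ hkk z hz z' hz' ⟨h1, h2⟩
    obtain ⟨g1, g2⟩ := Finset.mem_filter.mp hz
    obtain ⟨g1', g2'⟩ := Finset.mem_filter.mp hz'
    apply hkk
    rw [← g2, ← g2']
    apply hD z g1 z' g1'
    · rw [g2']; exact h1
    · rw [g2]; exact h2

/-- certificates of size at most `a` carry little more than `2a` bits -/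
lemma T_entropy (η : ℝ) (hη0 : 0 < η) (hη1 : η < 1) (G : Finset (Fin n → Bool))
    (c : (Fin n → Bool) → Fin n → Option Bool) (hsub : ∀ z ∈ G, Sub (c z) z)
    (hD : ∀ z ∈ G, ∀ z' ∈ G, Sub (c z') z → Sub (c z) z' → c z = c z')
    (a : ℝ) (ha : ∀ z ∈ G, ((dom (c z)).card : ℝ) ≤ a) :
    η * E G c ≤ G.card * (a * (- Real.log ((2 : ℝ) ^ (1 - η) - 1)) +
      (1 - η) * (n * Real.log 2 - Real.log G.card)) := by
  rcases G.eq_empty_or_nonempty with rfl | hne
  · simp [E]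
  have hG : (0 : ℝ) < G.card := Nat.cast_pos.mpr (Finset.card_pos.mpr hne)
  set s : ℝ := 1 - η with hs
  have hs0 : 0 < s := by rw [hs]; linarith
  have hs1 : s ≤ 1 := by rw [hs]; linarith
  set r : ℝ := (2 : ℝ) ^ s - 1 with hr
  have h2s : (1 : ℝ) < (2 : ℝ) ^ s := Real.one_lt_rpow (by norm_num) hs0
  have h2s' : (2 : ℝ) ^ s ≤ 2 := by
    calc (2 : ℝ) ^ s ≤ (2 : ℝ) ^ (1 : ℝ) := Real.rpow_le_rpow_of_exponent_le (by norm_num) hs1
      _ = 2 := by simp
  have hr0 : 0 < r := by rw [hr]; linarith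
  have hr1 : r ≤ 1 := by rw [hr]; linarith
  have hlr : 0 ≤ - Real.log r := by
    rw [neg_nonneg]; exact Real.log_nonpos hr0.le hr1
  have hT := T_sum s hs0 hs1 G c hsub hD
  let Q : (Fin n → Option Bool) → ℝ := fun k => r ^ (dom k).card *
      (((G.filter (fun z => c z = k)).card : ℝ) / 2 ^ n) ^ s
  have hcz : ∀ z ∈ G, ((G.filter (fun w => c w = c z)).card : ℝ) = (fib G c z).card := by
    intro z _
    rw [fib_card_eq]
  have h2n : (0 : ℝ) < 2 ^ n := by positivity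
  have hQpos : ∀ z ∈ G, 0 < Q (c z) := by
    intro z hz
    simp only [Q]
    rw [hcz z hz]
    exact mul_pos (pow_pos hr0 _) (Real.rpow_pos_of_pos (div_pos (fib_pos' hz) h2n) _)
  let t : (Fin n → Bool) → ℝ := fun z => G.card * Q (c z) / (fib G c z).card
  have ht : ∀ z ∈ G, 0 < t z := fun z hz => div_pos (mul_pos hG (hQpos z hz)) (fib_pos' hz)
  have hts : ∑ z ∈ G, t z ≤ G.card := by
    have h1 := sum_div_fib G c (fun k => G.card * Q k)
    simp only [t]
    rw [h1, ← Finset.mul_sum]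
    calc (G.card : ℝ) * ∑ i ∈ G.image c, Q i ≤ G.card * 1 := mul_le_mul_of_nonneg_left hT hG.le
      _ = G.card := mul_one _
  have hg := gibbs G t ht hts
  have hlog : ∀ z ∈ G, Real.log (t z) = η * (Real.log G.card - Real.log (fib G c z).card) +
      (dom (c z)).card * Real.log r + s * (Real.log G.card - n * Real.log 2) := by
    intro z hz
    simp only [t]
    rw [Real.log_div (mul_pos hG (hQpos z hz)).ne' (fib_pos' hz).ne',
      Real.log_mul hG.ne' (hQpos z hz).ne']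
    simp only [Q]
    rw [hcz z hz, Real.log_mul (pow_pos hr0 _).ne'
      (Real.rpow_pos_of_pos (div_pos (fib_pos' hz) h2n) _).ne', Real.log_pow,
      Real.log_rpow (div_pos (fib_pos' hz) h2n), Real.log_div (fib_pos' hz).ne' h2n.ne', Real.log_pow,
      hs]
    ring
  rw [Finset.sum_congr rfl hlog, Finset.sum_add_distrib, Finset.sum_add_distrib, ← Finset.mul_sum,
    Finset.sum_const, nsmul_eq_mul, ← Finset.sum_mul] at hg
  have hd : (∑ z ∈ G, ((dom (c z)).card : ℝ)) * (- Real.log r) ≤ (G.card * a) * (- Real.log r) := by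
    apply mul_le_mul_of_nonneg_right _ hlr
    calc ∑ z ∈ G, ((dom (c z)).card : ℝ) ≤ ∑ z ∈ G, a := Finset.sum_le_sum ha
      _ = G.card * a := by rw [Finset.sum_const, nsmul_eq_mul]
  unfold E
  nlinarith [hg, hd]

lemma log_bound (η : ℝ) (hη0 : 0 < η) (hη1 : 2 * η * Real.log 2 < 1) :
    - Real.log ((2 : ℝ) ^ (1 - η) - 1) ≤ 2 * η * Real.log 2 / (1 - 2 * η * Real.log 2) := by
  have hl : 0 < Real.log 2 := Real.log_pos (by norm_num)
  have h1 : (2 : ℝ) ^ (1 - η) = 2 * Real.exp (- (η * Real.log 2)) := by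
    rw [Real.rpow_sub (by norm_num), Real.rpow_one, Real.rpow_def_of_pos (by norm_num),
      Real.exp_neg, div_eq_mul_inv, mul_comm (Real.log 2)]
  have h2 : 1 - η * Real.log 2 ≤ Real.exp (- (η * Real.log 2)) := by
    have := Real.add_one_le_exp (- (η * Real.log 2))
    linarith
  set y : ℝ := 2 * η * Real.log 2 with hy
  have hy1 : 0 < 1 - y := by linarith
  have h3 : 1 - y ≤ (2 : ℝ) ^ (1 - η) - 1 := by
    rw [h1, hy]; linarith
  have h4 : Real.log (1 - y) ≤ Real.log ((2 : ℝ) ^ (1 - η) - 1) := Real.log_le_log hy1 h3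
  have h5 : Real.log (1 - y)⁻¹ ≤ (1 - y)⁻¹ - 1 := Real.log_le_sub_one_of_pos (inv_pos.mpr hy1)
  rw [Real.log_inv] at h5
  have h6 : (1 - y)⁻¹ - 1 = y / (1 - y) := by field_simp; ring
  linarith

/-- main form -/
lemma T_entropy' (η : ℝ) (hη0 : 0 < η) (hη1 : 2 * η * Real.log 2 < 1) (hη2 : η < 1)
    (G : Finset (Fin n → Bool))
    (c : (Fin n → Bool) → Fin n → Option Bool) (hsub : ∀ z ∈ G, Sub (c z) z)
    (hD : ∀ z ∈ G, ∀ z' ∈ G, Sub (c z') z → Sub (c z) z' → c z = c z')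
    (a : ℝ) (ha0 : 0 ≤ a) (ha : ∀ z ∈ G, ((dom (c z)).card : ℝ) ≤ a) :
    η * E G c ≤ G.card * (a * (2 * η * Real.log 2 / (1 - 2 * η * Real.log 2)) +
      (1 - η) * (n * Real.log 2 - Real.log G.card)) := by
  refine (T_entropy η hη0 hη2 G c hsub hD a ha).trans ?_
  gcongr
  exact log_bound η hη0 hη1

/-- sets with small fibres are small -/
lemma T_bad (η : ℝ) (hη0 : 0 < η) (hη1 : 2 * η * Real.log 2 < 1) (hη2 : η < 1)
    (G : Finset (Fin n → Bool)) (hne : G.Nonempty)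
    (c : (Fin n → Bool) → Fin n → Option Bool) (hsub : ∀ z ∈ G, Sub (c z) z)
    (hD : ∀ z ∈ G, ∀ z' ∈ G, Sub (c z') z → Sub (c z) z' → c z = c z')
    (a : ℝ) (ha0 : 0 ≤ a) (ha : ∀ z ∈ G, ((dom (c z)).card : ℝ) ≤ a)
    (M : ℝ) (hM : ∀ z ∈ G, ((fib G c z).card : ℝ) ≤ M) :
    Real.log G.card ≤ n * Real.log 2 - η * (n * Real.log 2 - Real.log M) +
      a * (2 * η * Real.log 2 / (1 - 2 * η * Real.log 2)) := by
  have hG : (0 : ℝ) < G.card := Nat.cast_pos.mpr (Finset.card_pos.mpr hne)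
  have h1 := T_entropy' η hη0 hη1 hη2 G c hsub hD a ha0 ha
  have h2 := E_ge G c M hM
  have h3 := mul_le_mul_of_nonneg_left h2 hη0.le
  have h4 : (G.card : ℝ) * (η * (Real.log G.card - Real.log M)) ≤
      G.card * (a * (2 * η * Real.log 2 / (1 - 2 * η * Real.log 2)) +
      (1 - η) * (n * Real.log 2 - Real.log G.card)) := by
    calc _ = η * (G.card * (Real.log G.card - Real.log M)) := by ring
      _ ≤ _ := h3.trans h1
  have h5 := le_of_mul_le_mul_left h4 hG
  linarith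

end Pool.Agent.SemRO
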