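import Pool.Agent.SemRO.Ent

/-! Near independence of one block from each of the others forces its domain to be almost static. -/

namespace Pool.Agent.SemRO

open Finset

variable {Ω : Type*} {β γ : Type*}

open Classical in
/-- lower bound for mutual information from an event that never (rarely) happens jointly -/
lemma mi_lower (G : Finset Ω) (x : Ω → β) (B : Ω → γ) (P : β → Prop) (Q : γ → Prop) :
    ((G.filter (fun z => P (x z))).card : ℝ) * (G.filter (fun z => Q (B z))).card / (2 * G.card)
      - Real.log 2 * (G.filter (fun z => P (x z) ∧ Q (B z))).card ≤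
    ∑ z ∈ G, (Real.log (fib G (fun z => (x z, B z)) z).card + Real.log G.card
      - Real.log (fib G x z).card - Real.log (fib G B z).card) := by
  rcases G.eq_empty_or_nonempty with rfl | hne
  · simp
  have hG : (0 : ℝ) < G.card := Nat.cast_pos.mpr (Finset.card_pos.mpr hne)
  set nP : ℝ := ((G.filter (fun z => P (x z))).card : ℝ) with hnP
  set nQ : ℝ := ((G.filter (fun z => Q (B z))).card : ℝ) with hnQ
  have hP0 : 0 ≤ nP := Nat.cast_nonneg _
  have hQ0 : 0 ≤ nQ := Nat.cast_nonneg _
  have hP1 : nP ≤ G.card := by
    rw [hnP]; exact_mod_cast Finset.card_le_card (Finset.filter_subset _ _)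
  have hQ1 : nQ ≤ G.card := by
    rw [hnQ]; exact_mod_cast Finset.card_le_card (Finset.filter_subset _ _)
  set Z : ℝ := 1 - nP * nQ / (2 * G.card ^ 2) with hZ
  have hZle : nP * nQ / (2 * G.card ^ 2) ≤ 1 / 2 := by
    rw [div_le_iff₀ (by positivity)]
    nlinarith [mul_le_mul hP1 hQ1 hQ0 hG.le]
  have hZpos : 0 < Z := by rw [hZ]; linarith
  let f : β → γ → ℝ := fun y y' => if P y ∧ Q y' then 1 / 2 else 1
  have hf : ∀ y y', 0 < f y y' := by
    intro y y'; simp only [f]; split_ifs <;> norm_num
  let t : Ω → ℝ := fun z => ((fib G x z).card * (fib G B z).card : ℝ) /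
    (G.card * (fib G (fun z => (x z, B z)) z).card) * (f (x z) (B z) / Z)
  have ht : ∀ z ∈ G, 0 < t z := fun z hz =>
    mul_pos (div_pos (mul_pos (fib_pos' hz) (fib_pos' hz)) (mul_pos hG (fib_pos' hz)))
      (div_pos (hf _ _) hZpos)
  have hsum : ∑ z ∈ G, t z ≤ G.card := by
    let F : β × γ → ℝ := fun y => ((G.filter (fun w => x w = y.1)).card : ℝ) *
      ((G.filter (fun w => B w = y.2)).card : ℝ) / G.card * (f y.1 y.2 / Z)
    have h1 : ∀ z ∈ G, t z = F (x z, B z) / (fib G (fun z => (x z, B z)) z).card := by
      intro z hz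
      have e1 : ((fib G x z).card : ℝ) = (G.filter (fun w => x w = x z)).card := by
        unfold fib; congr
      have e2 : ((fib G B z).card : ℝ) = (G.filter (fun w => B w = B z)).card := by
        unfold fib; congr
      simp only [t, F]
      rw [← e1, ← e2]
      have := (fib_pos' (f := fun z => (x z, B z)) hz).ne'
      field_simp
    rw [Finset.sum_congr rfl h1, sum_div_fib G (fun z => (x z, B z)) F]
    have e1 : (∑ y ∈ G.image x, ((G.filter (fun w => x w = y)).card : ℝ)) = G.card := by
      rw [← Nat.cast_sum]
      congr 1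
      exact (Finset.card_eq_sum_card_fiberwise (fun z hz => Finset.mem_image_of_mem x hz)).symm
    have e2 : (∑ y ∈ G.image B, ((G.filter (fun w => B w = y)).card : ℝ)) = G.card := by
      rw [← Nat.cast_sum]
      congr 1
      exact (Finset.card_eq_sum_card_fiberwise (fun z hz => Finset.mem_image_of_mem B hz)).symm
    have e3 : (∑ y ∈ G.image x, (if P y then ((G.filter (fun w => x w = y)).card : ℝ) else 0)) = nP := by
      rw [← Finset.sum_filter, hnP, ← Nat.cast_sum]
      congr 1
      rw [Finset.card_eq_sum_card_fiberwise (s := G.filter (fun z => P (x z)))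
        (t := (G.image x).filter P) (f := x)]
      · refine Finset.sum_congr rfl fun y hy => ?_
        congr 1
        ext w
        simp only [Finset.mem_filter]
        constructor
        · rintro ⟨h1, h2⟩
          exact ⟨⟨h1, h2 ▸ (Finset.mem_filter.mp hy).2⟩, h2⟩
        · rintro ⟨⟨h1, _⟩, h2⟩
          exact ⟨h1, h2⟩
      · intro z hz
        have := Finset.mem_filter.mp hz
        simp only [Finset.coe_filter, Finset.mem_image, Set.mem_ofPred_eq]
        exact ⟨⟨z, this.1, rfl⟩, this.2⟩
    have e4 : (∑ y ∈ G.image B, (if Q y then ((G.filter (fun w => B w = y)).card : ℝ) else 0)) = nQ := by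
      rw [← Finset.sum_filter, hnQ, ← Nat.cast_sum]
      congr 1
      rw [Finset.card_eq_sum_card_fiberwise (s := G.filter (fun z => Q (B z)))
        (t := (G.image B).filter Q) (f := B)]
      · refine Finset.sum_congr rfl fun y hy => ?_
        congr 1
        ext w
        simp only [Finset.mem_filter]
        constructor
        · rintro ⟨h1, h2⟩
          exact ⟨⟨h1, h2 ▸ (Finset.mem_filter.mp hy).2⟩, h2⟩
        · rintro ⟨⟨h1, _⟩, h2⟩
          exact ⟨h1, h2⟩
      · intro z hz
        have := Finset.mem_filter.mp hz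
        simp only [Finset.coe_filter, Finset.mem_image, Set.mem_ofPred_eq]
        exact ⟨⟨z, this.1, rfl⟩, this.2⟩
    calc ∑ y ∈ G.image (fun z => (x z, B z)), F y
        ≤ ∑ y ∈ (G.image x) ×ˢ (G.image B), F y := by
          apply Finset.sum_le_sum_of_subset_of_nonneg
          · intro y hy
            obtain ⟨z, hz, rfl⟩ := Finset.mem_image.mp hy
            exact Finset.mem_product.mpr ⟨Finset.mem_image_of_mem x hz, Finset.mem_image_of_mem B hz⟩
          · intro y _ _
            have := hf y.1 y.2
            positivity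
      _ = ((∑ y ∈ G.image x, ((G.filter (fun w => x w = y)).card : ℝ)) *
          (∑ y ∈ G.image B, ((G.filter (fun w => B w = y)).card : ℝ)) - 1 / 2 *
          ((∑ y ∈ G.image x, (if P y then ((G.filter (fun w => x w = y)).card : ℝ) else 0)) *
          (∑ y ∈ G.image B, (if Q y then ((G.filter (fun w => B w = y)).card : ℝ) else 0)))) /
            (G.card * Z) := by
          rw [Finset.sum_product, Finset.sum_mul_sum, Finset.sum_mul_sum, Finset.mul_sum,
            ← Finset.sum_sub_distrib, Finset.sum_div]
          refine Finset.sum_congr rfl fun y _ => ?_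
          rw [Finset.mul_sum, ← Finset.sum_sub_distrib, Finset.sum_div]
          refine Finset.sum_congr rfl fun y' _ => ?_
          simp only [F, f]
          by_cases hPy : P y <;> by_cases hQy : Q y' <;> simp only [hPy, hQy, and_true, and_false,
            if_true, if_false]
          · have := hG.ne'; have := hZpos.ne'
            field_simp; ring
          · have := hG.ne'; have := hZpos.ne'
            field_simp; ring
          · have := hG.ne'; have := hZpos.ne'
            field_simp; ring
          · have := hG.ne'; have := hZpos.ne'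
            field_simp; ring
      _ = G.card := by
          rw [e1, e2, e3, e4]
          rw [div_eq_iff (mul_pos hG hZpos).ne', hZ]
          have := hG.ne'
          field_simp
  have hg := gibbs G t ht hsum
  have hlog : ∀ z ∈ G, Real.log (t z) = - (Real.log (fib G (fun z => (x z, B z)) z).card + Real.log G.card
      - Real.log (fib G x z).card - Real.log (fib G B z).card) + Real.log (f (x z) (B z))
        - Real.log Z := by
    intro z hz
    simp only [t]
    rw [Real.log_mul (div_pos (mul_pos (fib_pos' hz) (fib_pos' hz)) (mul_pos hG (fib_pos' hz))).ne'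
        (div_pos (hf _ _) hZpos).ne',
      Real.log_div (mul_pos (fib_pos' hz) (fib_pos' hz)).ne' (mul_pos hG (fib_pos' hz)).ne',
      Real.log_mul (fib_pos' hz).ne' (fib_pos' hz).ne', Real.log_mul hG.ne' (fib_pos' hz).ne',
      Real.log_div (hf _ _).ne' hZpos.ne']
    ring
  rw [Finset.sum_congr rfl hlog, Finset.sum_sub_distrib, Finset.sum_add_distrib,
    Finset.sum_neg_distrib, Finset.sum_const, nsmul_eq_mul] at hg
  have hlf : ∑ z ∈ G, Real.log (f (x z) (B z)) =
      - (Real.log 2 * (G.filter (fun z => P (x z) ∧ Q (B z))).card) := by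
    have : ∀ z ∈ G, Real.log (f (x z) (B z)) = if P (x z) ∧ Q (B z) then - Real.log 2 else 0 := by
      intro z _
      simp only [f]
      split_ifs
      · rw [one_div, Real.log_inv]
      · exact Real.log_one
    rw [Finset.sum_congr rfl this, ← Finset.sum_filter, Finset.sum_const, nsmul_eq_mul]
    ring
  have hlZ : Real.log Z ≤ - (nP * nQ / (2 * G.card ^ 2)) := by
    have := Real.log_le_sub_one_of_pos hZpos
    rw [hZ] at this ⊢
    linarith
  have hlZ' : (G.card : ℝ) * Real.log Z ≤ - (nP * nQ / (2 * G.card)) := by
    calc (G.card : ℝ) * Real.log Z ≤ G.card * (- (nP * nQ / (2 * G.card ^ 2))) :=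
          mul_le_mul_of_nonneg_left hlZ hG.le
      _ = _ := by
          have := hG.ne'
          field_simp
  rw [hlf] at hg
  linarith

/-- bound on the binary entropy function -/
lemma binary_bound {p κ : ℝ} (hp0 : 0 < p) (hp1 : p < 1) (hκ : 0 < κ) :
    p * (- Real.log p) + (1 - p) * (- Real.log (1 - p)) ≤ κ + p * (1 - p) / κ := by
  have key : ∀ q : ℝ, 0 < q → q * (- Real.log q) ≤ 2 * (√q - q) := by
    intro q hq
    have hs : 0 < √q := Real.sqrt_pos.mpr hq
    have h1 : Real.log (√q)⁻¹ ≤ (√q)⁻¹ - 1 := Real.log_le_sub_one_of_pos (inv_pos.mpr hs)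
    have h2 : Real.log (√q)⁻¹ = - (Real.log q / 2) := by
      rw [Real.log_inv, Real.log_sqrt hq.le]
    rw [h2] at h1
    have h3 : - Real.log q ≤ 2 * ((√q)⁻¹ - 1) := by linarith
    calc q * (- Real.log q) ≤ q * (2 * ((√q)⁻¹ - 1)) := mul_le_mul_of_nonneg_left h3 hq.le
      _ = 2 * (√q - q) := by
          have : q = √q * √q := (Real.mul_self_sqrt hq.le).symm
          have h4 : q * (√q)⁻¹ = √q := by
            rw [this]; simp [Real.sqrt_mul_self hs.le]
          linarith [h4]
  have h1 := key p hp0
  have h2 := key (1 - p) (by linarith)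
  set u := √p with hu
  set v := √(1 - p) with hv
  have hu0 : 0 ≤ u := Real.sqrt_nonneg _
  have hv0 : 0 ≤ v := Real.sqrt_nonneg _
  have hu2 : u * u = p := Real.mul_self_sqrt hp0.le
  have hv2 : v * v = 1 - p := Real.mul_self_sqrt (by linarith)
  have hu1 : u ≤ 1 := by nlinarith
  have hv1 : v ≤ 1 := by nlinarith
  have h3 : u + v - 1 ≤ u * v := by nlinarith [mul_nonneg (sub_nonneg.mpr hu1) (sub_nonneg.mpr hv1)]
  have h4 : 2 * (u * v) ≤ κ + p * (1 - p) / κ := by
    rw [← hv2, ← hu2]
    rw [← sub_nonneg]
    have : κ + u * u * (v * v) / κ - 2 * (u * v) = (κ - u * v) ^ 2 / κ := by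
      field_simp
      ring
    rw [this]; positivity
  nlinarith

open Classical in
/-- entropy of one coordinate of a sub-assignment -/
lemma coord_entropy (G : Finset Ω) (x : Ω → Option Bool) (κ : ℝ) (hκ : 0 < κ) :
    ∑ z ∈ G, (Real.log G.card - Real.log (fib G x z).card) ≤
      Real.log 2 * (G.filter (fun z => x z ≠ none)).card + κ * G.card +
        (1 / κ) * (((G.filter (fun z => x z ≠ none)).card : ℝ) *
          (G.filter (fun z => x z = none)).card / G.card) := by
  rcases G.eq_empty_or_nonempty with rfl | hne
  · simp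
  have hG : (0 : ℝ) < G.card := Nat.cast_pos.mpr (Finset.card_pos.mpr hne)
  set nS : ℝ := ((G.filter (fun z => x z ≠ none)).card : ℝ) with hnS
  set nN : ℝ := ((G.filter (fun z => x z = none)).card : ℝ) with hnN
  have hsum : nS + nN = G.card := by
    rw [hnS, hnN, ← Nat.cast_add]
    congr 1
    rw [add_comm]
    exact Finset.card_filter_add_card_filter_not (s := G) (fun z => x z = none)
  have hS0 : 0 ≤ nS := Nat.cast_nonneg _
  have hN0 : 0 ≤ nN := Nat.cast_nonneg _
  let Q : Option Bool → ℝ := fun o => if o = none then nN / G.card else nS / G.card / 2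
  let t : Ω → ℝ := fun z => G.card * Q (x z) / (fib G x z).card
  have hQpos : ∀ z ∈ G, 0 < Q (x z) := by
    intro z hz
    simp only [Q]
    split_ifs with h
    · apply div_pos _ hG
      rw [hnN]
      exact Nat.cast_pos.mpr (Finset.card_pos.mpr ⟨z, Finset.mem_filter.mpr ⟨hz, h⟩⟩)
    · apply div_pos (div_pos _ hG) (by norm_num)
      rw [hnS]
      exact Nat.cast_pos.mpr (Finset.card_pos.mpr ⟨z, Finset.mem_filter.mpr ⟨hz, h⟩⟩)
  have ht : ∀ z ∈ G, 0 < t z := fun z hz => div_pos (mul_pos hG (hQpos z hz)) (fib_pos' hz)
  have hts : ∑ z ∈ G, t z ≤ G.card := by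
    have := sum_div_fib G x (fun o => G.card * Q o)
    simp only [t]
    rw [this]
    calc ∑ y ∈ G.image x, (G.card : ℝ) * Q y ≤ ∑ y : Option Bool, (G.card : ℝ) * Q y := by
          apply Finset.sum_le_sum_of_subset_of_nonneg (Finset.subset_univ _)
          intro y _ _
          apply mul_nonneg hG.le
          simp only [Q]
          split_ifs <;> positivity
      _ = G.card := by
          rw [Fintype.sum_option]
          simp only [Q, if_true, reduceCtorEq, if_false, Fintype.sum_bool]
          rw [← mul_div_assoc, mul_div_cancel_left₀ _ hG.ne']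
          have : (G.card : ℝ) * (nS / G.card / 2) = nS / 2 := by
            field_simp
          rw [this]
          linarith
  have hg := gibbs G t ht hts
  have hlog : ∀ z ∈ G, Real.log (t z) = (Real.log G.card - Real.log (fib G x z).card) +
      Real.log (Q (x z)) := by
    intro z hz
    simp only [t]
    rw [Real.log_div (mul_pos hG (hQpos z hz)).ne' (fib_pos' hz).ne',
      Real.log_mul hG.ne' (hQpos z hz).ne']
    ring
  rw [Finset.sum_congr rfl hlog, Finset.sum_add_distrib] at hg
  have hsplit : ∑ z ∈ G, Real.log (Q (x z)) =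
      nN * Real.log (nN / G.card) + nS * Real.log (nS / G.card / 2) := by
    rw [← Finset.sum_filter_add_sum_filter_not G (fun z => x z = none)]
    congr 1
    · rw [hnN, ← nsmul_eq_mul, ← Finset.sum_const]
      refine Finset.sum_congr rfl fun z hz => ?_
      simp only [Q, (Finset.mem_filter.mp hz).2, if_true]
      rw [hnN]
    · rw [hnS, ← nsmul_eq_mul, ← Finset.sum_const]
      refine Finset.sum_congr rfl fun z hz => ?_
      simp only [Q, (Finset.mem_filter.mp hz).2, if_false]
      rw [hnS]
  rw [hsplit] at hg
  set h := ∑ z ∈ G, (Real.log G.card - Real.log (fib G x z).card) with hh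
  by_cases hS : nS = 0
  · have hN : nN = G.card := by linarith
    rw [hS, hN] at hg
    rw [hS]
    simp only [zero_mul, add_zero, div_self hG.ne', Real.log_one, mul_zero, zero_div] at hg ⊢
    have : 0 ≤ κ * G.card := by positivity
    linarith
  by_cases hN : nN = 0
  · have hS' : nS = G.card := by linarith
    rw [hS', hN] at hg
    rw [hS', hN]
    simp only [zero_mul, zero_add, div_self hG.ne', mul_zero, zero_div, add_zero, one_div,
      Real.log_inv] at hg ⊢
    have : 0 ≤ κ * G.card := by positivity
    linarith
  have hSp : 0 < nS := lt_of_le_of_ne hS0 (Ne.symm hS)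
  have hNp : 0 < nN := lt_of_le_of_ne hN0 (Ne.symm hN)
  set p : ℝ := nS / G.card with hp
  have hp0 : 0 < p := div_pos hSp hG
  have h1p : 1 - p = nN / G.card := by
    rw [hp, ← hsum, eq_div_iff (by linarith), sub_mul, div_mul_cancel₀ _ (by linarith)]; ring
  have hp1 : p < 1 := by
    have : 0 < 1 - p := by rw [h1p]; exact div_pos hNp hG
    linarith
  have hb := binary_bound hp0 hp1 hκ
  have hlp : Real.log (nS / G.card / 2) = Real.log p - Real.log 2 := by
    rw [← hp, Real.log_div hp0.ne' (by norm_num)]
  rw [hlp, ← h1p] at hg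
  have eS : nS = G.card * p := by rw [hp]; field_simp
  have eN : nN = G.card * (1 - p) := by rw [h1p]; field_simp
  have hb' : (G.card : ℝ) * (p * (- Real.log p) + (1 - p) * (- Real.log (1 - p))) ≤
      G.card * (κ + p * (1 - p) / κ) := mul_le_mul_of_nonneg_left hb hG.le
  have e5 : (1 / κ) * (nS * nN / G.card) = G.card * (p * (1 - p) / κ) := by
    rw [eS, eN]
    have hG' := hG.ne'
    generalize (G.card : ℝ) = g at hG' ⊢
    clear_value p
    field_simp
  rw [e5]
  rw [eN, eS] at hg
  rw [eS]
  nlinarith

end Pool.Agent.SemRO
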