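import Pool.Agent.SemRO.Chain

/-! The chain rule over coordinates. -/

namespace Pool.Agent.SemRO

open Finset

variable {Ω : Type*} {γ : Type*} {β : Type*}

open Classical in
/-- indicator -/
noncomputable def ind (p : Prop) : ℝ := if p then 1 else 0

lemma ind_nonneg (p : Prop) : 0 ≤ ind p := by
  unfold ind; split_ifs <;> norm_num

lemma sum_ind (G : Finset Ω) (P : Ω → Prop) [DecidablePred P] :
    ∑ z ∈ G, ind (P z) = (G.filter P).card := by
  have : ∀ z ∈ G, ind (P z) = if P z then 1 else 0 := by
    intro z _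
    unfold ind
    split_ifs <;> rfl
  rw [Finset.sum_congr rfl this, ← Finset.sum_filter, Finset.sum_const]
  simp

lemma mi_lower' (G : Finset Ω) (x : Ω → β) (B : Ω → γ) (P : β → Prop) (Q : γ → Prop) :
    (∑ z ∈ G, ind (P (x z))) * (∑ z ∈ G, ind (Q (B z))) / (2 * G.card)
      - Real.log 2 * (∑ z ∈ G, ind (P (x z) ∧ Q (B z))) ≤
    ∑ z ∈ G, (Real.log (fib G (fun z => (x z, B z)) z).card + Real.log G.card
      - Real.log (fib G x z).card - Real.log (fib G B z).card) := by
  classical
  have := mi_lower G x B P Q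
  rw [← sum_ind, ← sum_ind, ← sum_ind] at this
  exact this

lemma coord_entropy' (G : Finset Ω) (x : Ω → Option Bool) (κ : ℝ) (hκ : 0 < κ) :
    ∑ z ∈ G, (Real.log G.card - Real.log (fib G x z).card) ≤
      Real.log 2 * (∑ z ∈ G, ind (x z ≠ none)) + κ * G.card +
        (1 / κ) * ((∑ z ∈ G, ind (x z ≠ none)) * (∑ z ∈ G, ind (x z = none)) / G.card) := by
  classical
  have := coord_entropy G x κ hκ
  rw [← sum_ind, ← sum_ind] at this
  exact this

/-- the right-hand side of the one-coordinate inequality -/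
noncomputable def rhs {K : Type*} [Fintype K] (κ : ℝ) (x : Ω → Option Bool) (B : K → Ω → γ)
    (Q : K → γ → Prop) (D : Ω → Prop) (MI : K → Ω → ℝ) (z : Ω) : ℝ :=
  Real.log 2 * ind (x z ≠ none) + κ +
    (1 / κ) * ((∑ b, 2 * (MI b z + Real.log 2 * ind (x z ≠ none ∧ Q b (B b z)))) + ind (D z))

lemma local_step {K : Type*} [Fintype K] (G : Finset Ω) (x : Ω → Option Bool) (B : K → Ω → γ)
    (Q : K → γ → Prop) (D : Ω → Prop) (κ : ℝ) (hκ : 0 < κ)
    (hcov : ∀ z ∈ G, x z ≠ none ∨ (∃ b, Q b (B b z)) ∨ D z) :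
    ∑ z ∈ G, (Real.log G.card - Real.log (fib G x z).card) ≤
      ∑ z ∈ G, rhs κ x B Q D (fun b z => Real.log (fib G (fun z => (x z, B b z)) z).card +
        Real.log G.card - Real.log (fib G x z).card - Real.log (fib G (B b) z).card) z := by
  rcases G.eq_empty_or_nonempty with rfl | hne
  · simp
  have hG : (0 : ℝ) < G.card := Nat.cast_pos.mpr (Finset.card_pos.mpr hne)
  have h1 := coord_entropy' G x κ hκ
  -- the number of uncovered points
  have h2 : ∑ z ∈ G, ind (x z = none) ≤
      (∑ b, ∑ z ∈ G, ind (Q b (B b z))) + ∑ z ∈ G, ind (D z) := by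
    rw [Finset.sum_comm, ← Finset.sum_add_distrib]
    refine Finset.sum_le_sum fun z hz => ?_
    have hn : ∀ b, 0 ≤ ind (Q b (B b z)) := fun b => ind_nonneg _
    by_cases hx : x z = none
    · rcases hcov z hz with h | ⟨b, h⟩ | h
      · exact absurd hx h
      · have e1 : ind (x z = none) = 1 := by simp [ind, hx]
        have e2 : ind (Q b (B b z)) = 1 := by simp [ind, h]
        have e3 : ind (Q b (B b z)) ≤ ∑ b, ind (Q b (B b z)) :=
          Finset.single_le_sum (f := fun b => ind (Q b (B b z))) (fun b _ => hn b)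
          (Finset.mem_univ b)
        have e4 := ind_nonneg (D z)
        linarith
      · have e1 : ind (x z = none) = 1 := by simp [ind, hx]
        have e2 : ind (D z) = 1 := by simp [ind, h]
        have e3 := Finset.sum_nonneg (fun b (_ : b ∈ Finset.univ) => hn b)
        linarith
    · have e1 : ind (x z = none) = 0 := by simp [ind, hx]
      have e3 := Finset.sum_nonneg (fun b (_ : b ∈ Finset.univ) => hn b)
      have e4 := ind_nonneg (D z)
      linarith
  set nS : ℝ := ∑ z ∈ G, ind (x z ≠ none) with hnS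
  have hS0 : 0 ≤ nS := Finset.sum_nonneg fun z _ => ind_nonneg _
  have hS1 : nS ≤ G.card := by
    rw [hnS]
    calc ∑ z ∈ G, ind (x z ≠ none) ≤ ∑ z ∈ G, (1 : ℝ) := by
          refine Finset.sum_le_sum fun z _ => ?_
          unfold ind; split_ifs <;> norm_num
      _ = G.card := by simp
  have hD0 : 0 ≤ ∑ z ∈ G, ind (D z) := Finset.sum_nonneg fun z _ => ind_nonneg _
  have h5 : nS * (∑ z ∈ G, ind (x z = none)) / G.card ≤
      (∑ b, nS * (∑ z ∈ G, ind (Q b (B b z))) / G.card) + ∑ z ∈ G, ind (D z) := by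
    calc nS * (∑ z ∈ G, ind (x z = none)) / G.card
        ≤ nS * ((∑ b, ∑ z ∈ G, ind (Q b (B b z))) + ∑ z ∈ G, ind (D z)) / G.card := by
          gcongr
      _ = (∑ b, nS * (∑ z ∈ G, ind (Q b (B b z))) / G.card) +
          nS * (∑ z ∈ G, ind (D z)) / G.card := by
          rw [mul_add, add_div, Finset.mul_sum, Finset.sum_div]
      _ ≤ _ := by
          gcongr
          rw [div_le_iff₀ hG, mul_comm]
          exact mul_le_mul_of_nonneg_left hS1 hD0
  have h6 : ∀ b, nS * (∑ z ∈ G, ind (Q b (B b z))) / G.card ≤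
      2 * ((∑ z ∈ G, (Real.log (fib G (fun z => (x z, B b z)) z).card +
        Real.log G.card - Real.log (fib G x z).card - Real.log (fib G (B b) z).card)) +
        Real.log 2 * ∑ z ∈ G, ind (x z ≠ none ∧ Q b (B b z))) := by
    intro b
    have := mi_lower' G x (B b) (fun o => o ≠ none) (Q b)
    have e : nS * (∑ z ∈ G, ind (Q b (B b z))) / G.card =
        2 * (nS * (∑ z ∈ G, ind (Q b (B b z))) / (2 * G.card)) := by
      field_simp
    rw [e]
    linarith
  unfold rhs
  rw [Finset.sum_add_distrib, Finset.sum_add_distrib, ← Finset.mul_sum, ← Finset.mul_sum,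
    Finset.sum_add_distrib, Finset.sum_comm, Finset.sum_const, nsmul_eq_mul]
  have h7 : ∑ b, ∑ z ∈ G, 2 * ((Real.log (fib G (fun z => (x z, B b z)) z).card +
        Real.log G.card - Real.log (fib G x z).card - Real.log (fib G (B b) z).card) +
        Real.log 2 * ind (x z ≠ none ∧ Q b (B b z))) =
      ∑ b, 2 * ((∑ z ∈ G, (Real.log (fib G (fun z => (x z, B b z)) z).card +
        Real.log G.card - Real.log (fib G x z).card - Real.log (fib G (B b) z).card)) +
        Real.log 2 * ∑ z ∈ G, ind (x z ≠ none ∧ Q b (B b z))) := by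
    refine Finset.sum_congr rfl fun b _ => ?_
    rw [← Finset.mul_sum, Finset.sum_add_distrib, ← Finset.mul_sum]
  rw [h7]
  have h8 : nS * (∑ z ∈ G, ind (x z = none)) / G.card ≤
      (∑ b, 2 * ((∑ z ∈ G, (Real.log (fib G (fun z => (x z, B b z)) z).card +
        Real.log G.card - Real.log (fib G x z).card - Real.log (fib G (B b) z).card)) +
        Real.log 2 * ∑ z ∈ G, ind (x z ≠ none ∧ Q b (B b z)))) + ∑ z ∈ G, ind (D z) :=
    h5.trans (by gcongr with b _; exact h6 b)
  have h9 := mul_le_mul_of_nonneg_left h8 (show 0 ≤ 1 / κ by positivity)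
  linarith

/-- the same inequality conditioned on `u` -/
lemma cond_step {K : Type*} [Fintype K] (G : Finset Ω) (u : Ω → β) (x : Ω → Option Bool)
    (B : K → Ω → γ) (Q : K → γ → Prop) (D : Ω → Prop) (κ : ℝ) (hκ : 0 < κ)
    (hcov : ∀ z ∈ G, x z ≠ none ∨ (∃ b, Q b (B b z)) ∨ D z) :
    ∑ z ∈ G, (Real.log (fib G u z).card - Real.log (fib G (fun z => (u z, x z)) z).card) ≤
      ∑ z ∈ G, rhs κ x B Q D (fun b z => Real.log (fib G (fun z => (u z, (x z, B b z))) z).card +
        Real.log (fib G u z).card - Real.log (fib G (fun z => (u z, x z)) z).card -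
        Real.log (fib G (fun z => (u z, B b z)) z).card) z := by
  refine sum_le_of_fib G u _ _ fun z hz => ?_
  have := local_step (fib G u z) x B Q D κ hκ (fun w hw => hcov w (mem_fib.mp hw).1)
  refine le_trans (le_of_eq ?_) (this.trans (le_of_eq ?_))
  · refine Finset.sum_congr rfl fun w hw => ?_
    rw [fib_fib G u x hw, fib_congr (mem_fib.mp hw).2]
  · refine Finset.sum_congr rfl fun w hw => ?_
    unfold rhs
    congr 3
    refine Finset.sum_congr rfl fun b _ => ?_
    beta_reduce
    rw [fib_fib G u x hw, fib_fib G u (B b) hw, fib_fib G u (fun z => (x z, B b z)) hw,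
      fib_congr (mem_fib.mp hw).2]

/-- initial part of a sub-assignment -/
def pre {n : ℕ} (a : Ω → Fin n → Option Bool) (i : ℕ) (z : Ω) : Fin n → Option Bool :=
  fun j => if j.val < i then a z j else none

lemma pre_eq_iff {n : ℕ} (a : Ω → Fin n → Option Bool) (i : ℕ) (z w : Ω) :
    pre a i w = pre a i z ↔ ∀ j : Fin n, j.val < i → a w j = a z j := by
  constructor
  · intro h j hj
    have := congrFun h j
    simpa [pre, hj] using this
  · intro h
    funext j
    unfold pre
    split_ifs with hj
    · exact h j hj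
    · rfl

/-- The chain rule inequality. -/
theorem chain_main {K : Type*} [Fintype K] {n : ℕ} (G : Finset Ω) (a : Ω → Fin n → Option Bool)
    (B : K → Ω → γ) (Q : K → Fin n → γ → Prop) (D : Ω → Fin n → Prop) (κ : ℝ) (hκ : 0 < κ)
    (hcov : ∀ z ∈ G, ∀ i, a z i ≠ none ∨ (∃ b, Q b i (B b z)) ∨ D z i) :
    E G a ≤ Real.log 2 * (∑ z ∈ G, ∑ i, ind (a z i ≠ none)) + κ * n * G.card +
      (1 / κ) * ((∑ b, 2 * ((E G a + E G (B b) - E G (fun z => (a z, B b z))) +
        Real.log 2 * ∑ z ∈ G, ∑ i, ind (a z i ≠ none ∧ Q b i (B b z)))) +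
        ∑ z ∈ G, ∑ i, ind (D z i)) := by
  classical
  -- quantities at level `i`
  let N : ℕ → ℝ := fun i => ∑ z ∈ G, Real.log (fib G (pre a i) z).card
  let V : K → ℕ → ℝ := fun b i => ∑ z ∈ G, Real.log (fib G (fun z => (pre a i z, B b z)) z).card
  have hpre_succ : ∀ (i : Fin n) (z w : Ω), pre a (i.val + 1) w = pre a (i.val + 1) z ↔
      (pre a i.val w = pre a i.val z ∧ a w i = a z i) := by
    intro i z w
    rw [pre_eq_iff, pre_eq_iff]
    constructor
    · intro h
      exact ⟨fun j hj => h j (by omega), h i (by omega)⟩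
    · rintro ⟨h1, h2⟩ j hj
      rcases Nat.lt_succ_iff_lt_or_eq.mp hj with h | h
      · exact h1 j h
      · have : j = i := Fin.ext h
        rw [this]; exact h2
  have step : ∀ i : Fin n, N i.val - N (i.val + 1) ≤
      Real.log 2 * (∑ z ∈ G, ind (a z i ≠ none)) + κ * G.card +
      (1 / κ) * ((∑ b, 2 * ((V b (i.val + 1) + N i.val - N (i.val + 1) - V b i.val) +
        Real.log 2 * ∑ z ∈ G, ind (a z i ≠ none ∧ Q b i (B b z)))) +
        ∑ z ∈ G, ind (D z i)) := by
    intro i
    have := cond_step G (pre a i.val) (fun z => a z i) B (fun b => Q b i) (fun z => D z i) κ hκ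
      (fun z hz => hcov z hz i)
    have e1 : ∀ z ∈ G, fib G (fun z => (pre a i.val z, a z i)) z = fib G (pre a (i.val + 1)) z := by
      intro z _
      apply fib_eq_of_iff
      intro w _
      rw [hpre_succ]
      simp
    have e2 : ∀ b, ∀ z ∈ G, fib G (fun z => (pre a i.val z, (a z i, B b z))) z =
        fib G (fun z => (pre a (i.val + 1) z, B b z)) z := by
      intro b z _
      apply fib_eq_of_iff
      intro w _
      simp only [Prod.mk.injEq, hpre_succ]
      tauto
    have e3 : ∑ z ∈ G, (Real.log (fib G (pre a i.val) z).card -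
        Real.log (fib G (fun z => (pre a i.val z, a z i)) z).card) = N i.val - N (i.val + 1) := by
      rw [Finset.sum_sub_distrib]
      congr 1
      refine Finset.sum_congr rfl fun z hz => ?_
      rw [e1 z hz]
    rw [e3] at this
    refine this.trans (le_of_eq ?_)
    unfold rhs
    rw [Finset.sum_add_distrib, Finset.sum_add_distrib, ← Finset.mul_sum, ← Finset.mul_sum,
      Finset.sum_add_distrib, Finset.sum_comm, Finset.sum_const, nsmul_eq_mul, mul_comm (G.card : ℝ) κ]
    congr 3
    refine Finset.sum_congr rfl fun b _ => ?_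
    rw [← Finset.mul_sum, Finset.sum_add_distrib, ← Finset.mul_sum]
    congr 2
    rw [Finset.sum_sub_distrib, Finset.sum_sub_distrib, Finset.sum_add_distrib]
    congr 1
    congr 1
    · congr 1
      refine Finset.sum_congr rfl fun z hz => ?_
      rw [e2 b z hz]
    · refine Finset.sum_congr rfl fun z hz => ?_
      rw [e1 z hz]
  -- sum over all coordinates
  have tel : ∀ f : ℕ → ℝ, ∑ i : Fin n, (f i.val - f (i.val + 1)) = f 0 - f n := by
    intro f
    rw [Fin.sum_univ_eq_sum_range (fun i => f i - f (i + 1)) n, Finset.sum_range_sub']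
  have hN0 : N 0 = G.card * Real.log G.card := by
    simp only [N]
    have : ∀ z ∈ G, Real.log (fib G (pre a 0) z).card = Real.log G.card := by
      intro z _
      have : fib G (pre a 0) z = G := by
        ext w; rw [mem_fib, pre_eq_iff]; simp
      rw [this]
    rw [Finset.sum_congr rfl this, Finset.sum_const, nsmul_eq_mul]
  have hNn : N n = ∑ z ∈ G, Real.log (fib G a z).card := by
    simp only [N]
    refine Finset.sum_congr rfl fun z _ => ?_
    congr 3
    apply fib_eq_of_iff
    intro w _
    rw [pre_eq_iff]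
    constructor
    · intro h; funext j; exact h j j.isLt
    · intro h j _; rw [h]
  have hV0 : ∀ b, V b 0 = ∑ z ∈ G, Real.log (fib G (B b) z).card := by
    intro b
    simp only [V]
    refine Finset.sum_congr rfl fun z _ => ?_
    congr 3
    apply fib_eq_of_iff
    intro w _
    simp only [Prod.mk.injEq, pre_eq_iff]
    simp
  have hVn : ∀ b, V b n = ∑ z ∈ G, Real.log (fib G (fun z => (a z, B b z)) z).card := by
    intro b
    simp only [V]
    refine Finset.sum_congr rfl fun z _ => ?_
    congr 3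
    apply fib_eq_of_iff
    intro w _
    simp only [Prod.mk.injEq, pre_eq_iff]
    constructor
    · rintro ⟨h, h'⟩; exact ⟨funext fun j => h j j.isLt, h'⟩
    · rintro ⟨h, h'⟩; exact ⟨fun j _ => by rw [h], h'⟩
  have hEa : E G a = N 0 - N n := by
    unfold E
    rw [Finset.sum_sub_distrib, Finset.sum_const, nsmul_eq_mul, hN0, hNn]
  have hEB : ∀ b, E G a + E G (B b) - E G (fun z => (a z, B b z)) = V b n + N 0 - N n - V b 0 := by
    intro b
    rw [hEa, hVn, hV0, hN0, hNn]
    unfold E
    rw [Finset.sum_sub_distrib, Finset.sum_sub_distrib, Finset.sum_const, nsmul_eq_mul]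
    ring
  have total := Finset.sum_le_sum (fun i (_ : i ∈ (Finset.univ : Finset (Fin n))) => step i)
  rw [tel N, ← hEa] at total
  refine total.trans (le_of_eq ?_)
  rw [Finset.sum_add_distrib, Finset.sum_add_distrib, Finset.sum_const, ← Finset.mul_sum,
    ← Finset.mul_sum, Finset.sum_add_distrib, Finset.card_univ, Fintype.card_fin, nsmul_eq_mul]
  rw [Finset.sum_comm (s := (Finset.univ : Finset (Fin n))) (t := G) (f := fun i z => ind (a z i ≠ none)),
    Finset.sum_comm (s := (Finset.univ : Finset (Fin n))) (t := G) (f := fun i z => ind (D z i))]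
  rw [show (n : ℝ) * (κ * G.card) = κ * n * G.card by ring]
  congr 3
  rw [Finset.sum_comm]
  refine Finset.sum_congr rfl fun b _ => ?_
  rw [← Finset.mul_sum, Finset.sum_add_distrib, ← Finset.mul_sum, hEB b]
  congr 2
  · have : ∀ i : Fin n, V b (i.val + 1) + N i.val - N (i.val + 1) - V b i.val =
        (N i.val - N (i.val + 1)) - (V b i.val - V b (i.val + 1)) := by intro i; ring
    rw [Finset.sum_congr rfl (fun i _ => this i), Finset.sum_sub_distrib, tel N, tel (V b)]
    ring
  · rw [Finset.sum_comm]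

end Pool.Agent.SemRO
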