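import Pool.Agent.SemRO.Core

/-! The combinatorial core: a certificate system with five segments inside a sensitive,
rectangle-free set cannot be dense. -/

namespace Pool.Agent.SemRO

open Finset

variable {n : ℕ} {a : Fin 5 → (Fin n → Bool) → Fin n → Option Bool} {W : Finset (Fin n → Bool)} {o : ℕ}

/-- the three big partner blocks -/
def bb : Fin 3 → Fin 5 := ![1, 2, 3]

/-- block `0`, a partner, and the short block -/
def J2 (t : Fin 3) : Finset (Fin 5) := {0, bb t, 4}

/-- the two other partners -/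
def J1 (t : Fin 3) : Finset (Fin 5) := ({1, 2, 3} : Finset (Fin 5)).erase (bb t)

lemma J12_cover (t : Fin 3) : ∀ b, b ∈ J1 t ∨ b ∈ J2 t := by
  revert t; decide

lemma J12_disj (t : Fin 3) : ∀ b, b ∈ J1 t → b ∉ J2 t := by
  revert t; decide

lemma J21_disj (t : Fin 3) : ∀ b, b ∈ J2 t → b ∉ J1 t := by
  revert t; decide

lemma J1_ne (t : Fin 3) : ∀ b, b ∈ J1 t → b ≠ 4 := by
  revert t; decide

lemma J1_card (t : Fin 3) : (J1 t).card = 2 := by
  revert t; decide

lemma bb_ne (t : Fin 3) : bb t ≠ 4 := by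
  revert t; decide

lemma bb_ne0 (t : Fin 3) : bb t ≠ 0 := by
  revert t; decide

open Classical in
/-- the bad points for `t` -/
noncomputable def Bad (W : Finset (Fin n → Bool)) (a : Fin 5 → (Fin n → Bool) → Fin n → Option Bool)
    (L : ℕ) (t : Fin 3) : Finset (Fin n → Bool) :=
  W.filter (fun z => ((UU W a (J1 t) (J2 t) z).image (restr (AJ a (J1 t) z)ᶜ)).card < L)

lemma Bad_sub (L : ℕ) (t : Fin 3) : Bad W a L t ⊆ W := by
  classical
  exact Finset.filter_subset _ _

lemma Sys.mono_E (h : Sys W a o) (G : Finset (Fin n → Bool)) (hG : G ⊆ W) (t : Fin 3) :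
    E G (cJ a (J2 t)) = E G (fun z => ((a 0 z, a (bb t) z), a 4 z)) := by
  apply E_congr
  intro z hz w hw
  rw [h.cJ_eq_iff (J2 t) (hG hz) (hG hw)]
  simp only [J2, Finset.mem_insert, Finset.mem_singleton, forall_eq_or_imp, forall_eq, Prod.mk.injEq]
  tauto

lemma AJ_card_le (A : ℝ) {z : Fin n → Bool} (hA : ∀ b, b ≠ 4 → ((dom (a b z)).card : ℝ) ≤ A) (t : Fin 3) :
    ((AJ a (J1 t) z).card : ℝ) ≤ 2 * A := by
  have h1 : (AJ a (J1 t) z).card ≤ ∑ b ∈ J1 t, (dom (a b z)).card := Finset.card_biUnion_le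
  calc ((AJ a (J1 t) z).card : ℝ) ≤ ((∑ b ∈ J1 t, (dom (a b z)).card : ℕ) : ℝ) := by exact_mod_cast h1
    _ = ∑ b ∈ J1 t, ((dom (a b z)).card : ℝ) := by push_cast; rfl
    _ ≤ ∑ b ∈ J1 t, A := Finset.sum_le_sum fun b hb => hA b (J1_ne t b hb)
    _ = 2 * A := by rw [Finset.sum_const, J1_card]; simp

lemma log2_lo : (0.6931 : ℝ) < Real.log 2 := by have := Real.log_two_gt_d9; linarith
lemma log2_hi : Real.log 2 < (0.6932 : ℝ) := by have := Real.log_two_lt_d9; linarith

/-- the value of the factor in `T_entropy'` for `η = 1/4000` -/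
lemma fac_bound : 2 * (1 / 4000 : ℝ) * Real.log 2 / (1 - 2 * (1 / 4000) * Real.log 2) ≤
    Real.log 2 * (1.000347 / 2000) := by
  have h1 := log2_lo
  have h2 := log2_hi
  rw [div_le_iff₀ (by linarith)]
  nlinarith

lemma numerics (n ℓ g m o tA te : ℝ) (hn : 0 < n) (l1 : 0.6931 < ℓ) (l2 : ℓ < 0.6932)
    (hg1 : n * ℓ - 5e-9 * n ≤ g) (hM : m ≤ 1 / 20000 * n) (ho : o ≤ 1 / 1000000 * n)
    (htA : tA = 1999 / 8000 * n * (2 * ℓ * 1.000347) + 4000 * (n * ℓ - g))
    (hte : te = 11 / 20000 * n * (2 * ℓ * 1.000347) + 4000 * (n * ℓ - g))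
    (hfin : g - m - te - tA ≤ ℓ * (1999 / 8000 * n) + 2 / 25 * n +
      25 / 2 * (6 * (2 * tA + te - g + m + ℓ * o) + 11 / 20000 * n)) : False := by
  have b1 : (4000 : ℝ) * (n * ℓ - g) ≤ 2e-5 * n := by linarith
  have a1 : 1999 / 8000 * n * (2 * ℓ * 1.000347) = (1999 / 4000 * 1.000347) * (n * ℓ) := by ring
  have a2 : 11 / 20000 * n * (2 * ℓ * 1.000347) = (11 / 10000 * 1.000347) * (n * ℓ) := by ring
  have c3 : ℓ * (1999 / 8000 * n) = 1999 / 8000 * (n * ℓ) := by ring
  have b4 : ℓ * o ≤ 0.6932 * (1 / 1000000 * n) := by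
    rcases le_total 0 o with h | h
    · calc ℓ * o ≤ 0.6932 * o := mul_le_mul_of_nonneg_right l2.le h
        _ ≤ _ := mul_le_mul_of_nonneg_left ho (by norm_num)
    · have : ℓ * o ≤ 0 := mul_nonpos_of_nonneg_of_nonpos (by linarith) h
      have : 0 ≤ 0.6932 * (1 / 1000000 * n) := by positivity
      linarith
  have c1 : n * 0.6931 ≤ n * ℓ := mul_le_mul_of_nonneg_left l1.le hn.le
  have c2 : n * ℓ ≤ n * 0.6932 := mul_le_mul_of_nonneg_left l2.le hn.le
  rw [a1] at htA
  rw [a2] at hte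
  rw [c3] at hfin
  generalize n * ℓ = N at *
  subst htA hte
  linarith

theorem core_false (hn : 10 ^ 12 ≤ n) (h : Sys W a o) {F : Set (Fin n → Bool)}
    (hF : ∀ z ∈ W, z ∈ F) {L : ℕ} (hR : RectFree F L) (hWne : W.Nonempty)
    (hA : ∀ z ∈ W, ∀ b, b ≠ 4 → ((dom (a b z)).card : ℝ) ≤ 1999 / 8000 * n)
    (he : ∀ z ∈ W, ((dom (a 4 z)).card : ℝ) ≤ 11 / 20000 * n)
    (ho : (o : ℝ) ≤ 1 / 1000000 * n)
    (hLM : 0 < L * Nsub n o)
    (hM : Real.log ((L * Nsub n o : ℕ) : ℝ) ≤ 1 / 20000 * n)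
    (hW : n * Real.log 2 - 3.75e-9 * n ≤ Real.log W.card) : False := by
  classical
  have hn' : (10 : ℝ) ^ 12 ≤ n := by exact_mod_cast hn
  have hnpos : (0 : ℝ) < n := by linarith [show (0 : ℝ) < 10 ^ 12 by norm_num]
  have l1 := log2_lo
  have l2 := log2_hi
  set ℓ := Real.log 2 with hℓ
  set m := Real.log ((L * Nsub n o : ℕ) : ℝ) with hm
  have hMpos : (0 : ℝ) < ((L * Nsub n o : ℕ) : ℝ) := Nat.cast_pos.mpr hLM
  have hfac := fac_bound
  have hη1 : 2 * (1 / 4000 : ℝ) * Real.log 2 < 1 := by rw [← hℓ]; linarith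
  have hWc : (0 : ℝ) < W.card := Nat.cast_pos.mpr (Finset.card_pos.mpr hWne)
  -- Step A : the bad sets are small
  have hbad : ∀ t, ((Bad W a L t).card : ℝ) ≤ W.card / 8 := by
    intro t
    rcases (Bad W a L t).eq_empty_or_nonempty with he' | hne'
    · rw [he']; simp; positivity
    have hB := T_bad (n := n) (1 / 4000) (by norm_num) hη1 (by norm_num) (Bad W a L t) hne'
      (cJ a (J1 t)) (fun z _ => sub_restr _ _)
      (fun z hz z' hz' => h.cJ_uniq (J1 t) z (Bad_sub L t hz) z' (Bad_sub L t hz'))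
      (2 * (1999 / 8000 * n)) (by positivity)
      (fun z hz => by
        unfold cJ; rw [dom_restr]
        exact AJ_card_le _ (fun b hb => hA z (Bad_sub L t hz) b hb) t)
      ((L * Nsub n o : ℕ) : ℝ)
      (fun z hz => by
        exact_mod_cast h.fibre_bound (J12_cover t) (J12_disj t) (Bad W a L t) (Bad_sub L t)
          (fun z hz => (Finset.mem_filter.mp hz).2) z hz)
    rw [← hℓ, ← hm] at hB
    have h3 : 2 * (1999 / 8000 * (n : ℝ)) * (2 * (1 / 4000) * ℓ / (1 - 2 * (1 / 4000) * ℓ)) ≤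
        2 * (1999 / 8000 * n) * (ℓ * (1.000347 / 2000)) := by
      apply mul_le_mul_of_nonneg_left hfac (by positivity)
    have hlog8 : Real.log ((W.card : ℝ) / 8) = Real.log W.card - 3 * ℓ := by
      rw [Real.log_div hWc.ne' (by norm_num), show (8 : ℝ) = 2 ^ 3 by norm_num, Real.log_pow]
      push_cast; ring
    have h4 : Real.log (Bad W a L t).card ≤ Real.log ((W.card : ℝ) / 8) := by
      rw [hlog8]
      have hnl : (n : ℝ) * 0.6931 ≤ n * ℓ := by nlinarith
      nlinarith
    exact (Real.log_le_log_iff (Nat.cast_pos.mpr (Finset.card_pos.mpr hne')) (by positivity)).mp h4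
  -- Step B : the good set
  set G := W \ (Finset.univ.biUnion (Bad W a L)) with hGdef
  have hGW : G ⊆ W := Finset.sdiff_subset
  have hGcard : (W.card : ℝ) / 2 ≤ G.card := by
    have h1 : (W.card : ℝ) ≤ G.card + (Finset.univ.biUnion (Bad W a L)).card := by
      have := Finset.card_le_card_sdiff_add_card (s := W) (t := Finset.univ.biUnion (Bad W a L))
      exact_mod_cast this
    have h2 : ((Finset.univ.biUnion (Bad W a L)).card : ℝ) ≤ ∑ t : Fin 3, ((Bad W a L t).card : ℝ) := by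
      have : (Finset.univ.biUnion (Bad W a L)).card ≤ ∑ t : Fin 3, (Bad W a L t).card :=
        Finset.card_biUnion_le
      exact_mod_cast this
    have h3 : ∑ t : Fin 3, ((Bad W a L t).card : ℝ) ≤ ∑ t : Fin 3, ((W.card : ℝ) / 8) :=
      Finset.sum_le_sum fun t _ => hbad t
    rw [Finset.sum_const, Finset.card_univ, Fintype.card_fin, nsmul_eq_mul] at h3
    push_cast at h3
    linarith
  have hGc : (0 : ℝ) < G.card := by linarith
  have hGne : G.Nonempty := Finset.card_pos.mp (by exact_mod_cast hGc)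
  set g := Real.log (G.card : ℝ) with hg
  have hg1 : n * ℓ - 5e-9 * n ≤ g := by
    have h1 : Real.log ((W.card : ℝ) / 2) ≤ g := Real.log_le_log (by positivity) hGcard
    rw [Real.log_div hWc.ne' (by norm_num), ← hℓ] at h1
    nlinarith
  have hg2 : g ≤ n * ℓ := by
    have h1 : (G.card : ℝ) ≤ 2 ^ n := by
      have := Finset.card_le_univ G
      rw [Fintype.card_fun, Fintype.card_bool, Fintype.card_fin] at this
      exact_mod_cast this
    have h2 := Real.log_le_log hGc h1
    rw [Real.log_pow, ← hℓ, ← hg] at h2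
    exact h2
  -- Step C : entropies
  have hent : ∀ (b : Fin 5) (A : ℝ), 0 ≤ A → (∀ z ∈ W, ((dom (a b z)).card : ℝ) ≤ A) →
      E G (a b) ≤ G.card * (A * (2 * ℓ * 1.000347) + 4000 * (n * ℓ - g)) := by
    intro b A hA0 hAb
    have := T_entropy' (n := n) (1 / 4000) (by norm_num) hη1 (by norm_num) G (a b)
      (fun z hz => h.sub z (hGW hz) b)
      (fun z hz z' hz' => h.uniq z (hGW hz) z' (hGW hz') b) A hA0 (fun z hz => hAb z (hGW hz))
    rw [← hℓ, ← hg] at this
    have h3 : (G.card : ℝ) * (A * (2 * (1 / 4000) * ℓ / (1 - 2 * (1 / 4000) * ℓ)) +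
        (1 - 1 / 4000) * (n * ℓ - g)) ≤ G.card * (A * (ℓ * (1.000347 / 2000)) + (n * ℓ - g)) := by
      apply mul_le_mul_of_nonneg_left _ hGc.le
      have h4 : A * (2 * (1 / 4000) * ℓ / (1 - 2 * (1 / 4000) * ℓ)) ≤ A * (ℓ * (1.000347 / 2000)) :=
        mul_le_mul_of_nonneg_left hfac hA0
      linarith
    have h5 := this.trans h3
    have h6 : (G.card : ℝ) * (A * (2 * ℓ * 1.000347) + 4000 * (n * ℓ - g)) =
        4000 * (G.card * (A * (ℓ * (1.000347 / 2000)) + (n * ℓ - g))) := by ring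
    rw [h6]; linarith
  set tA : ℝ := 1999 / 8000 * n * (2 * ℓ * 1.000347) + 4000 * (n * ℓ - g) with htA
  set te : ℝ := 11 / 20000 * n * (2 * ℓ * 1.000347) + 4000 * (n * ℓ - g) with hte
  have hEA : ∀ b, b ≠ 4 → E G (a b) ≤ G.card * tA := fun b hb =>
    hent b _ (by positivity) (fun z hz => hA z hz b hb)
  have hEe : E G (a 4) ≤ G.card * te := hent 4 _ (by positivity) he
  -- fibres of the complementary certificates are small
  have hpair : ∀ t, G.card * (g - m - te) ≤ E G (fun z => (a 0 z, a (bb t) z)) := by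
    intro t
    have h1 : ∀ z ∈ G, ((fib G (cJ a (J2 t)) z).card : ℝ) ≤ ((L * Nsub n o : ℕ) : ℝ) := by
      intro z hz
      have hR' : ∀ z ∈ G, ((UU W a (J2 t) (J1 t) z).image (restr (AJ a (J2 t) z)ᶜ)).card < L := by
        intro z hz
        have hzW := hGW hz
        have hzB : z ∉ Bad W a L t := by
          intro hb
          exact (Finset.mem_sdiff.mp hz).2 (Finset.mem_biUnion.mpr ⟨t, Finset.mem_univ _, hb⟩)
        have h2 : ¬ ((UU W a (J1 t) (J2 t) z).image (restr (AJ a (J1 t) z)ᶜ)).card < L := by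
          intro hlt
          exact hzB (Finset.mem_filter.mpr ⟨hzW, hlt⟩)
        rcases h.rect hF hR (J12_cover t) z with h3 | h3
        · rw [UU_comm (J2 t) (J1 t) z]
          refine lt_of_le_of_lt (restr_image_card_le ?_ _) h3
          intro i hi
          by_contra hcon
          exact (Finset.mem_compl.mp hi) (h.compl_sub (J12_cover t) hzW hcon)
        · exact absurd h3 h2
      exact_mod_cast h.fibre_bound (fun b => (J12_cover t b).symm) (J21_disj t) G hGW hR' z hz
    have h2 := E_ge G (cJ a (J2 t)) _ h1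
    rw [h.mono_E G hGW t] at h2
    have h3 := E_pair_le G (fun z => (a 0 z, a (bb t) z)) (a 4)
    rw [← hg, ← hm] at h2
    have e' : (G.card : ℝ) * (g - m - te) = G.card * (g - m) - G.card * te := by ring
    rw [e']
    linarith
  -- the chain rule inequality
  have hchain := chain_main (K := Fin 3) G (a 0) (fun t z => a (bb t) z) (fun _ i y => y i ≠ none)
    (fun z i => a 4 z i ≠ none) (2 / 25) (by norm_num)
    (by
      intro z hz i
      obtain ⟨b, hb⟩ := h.cover z (hGW hz) i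
      fin_cases b
      · left; exact hb
      · right; left; exact ⟨0, hb⟩
      · right; left; exact ⟨1, hb⟩
      · right; left; exact ⟨2, hb⟩
      · right; right; exact hb)
  rw [← hℓ] at hchain
  have hdomsum : ∀ (b : Fin 5) (A : ℝ), (∀ z ∈ W, ((dom (a b z)).card : ℝ) ≤ A) →
      ∑ z ∈ G, ∑ i, ind (a b z i ≠ none) ≤ G.card * A := by
    intro b A hAb
    calc ∑ z ∈ G, ∑ i, ind (a b z i ≠ none) ≤ ∑ z ∈ G, A := by
          refine Finset.sum_le_sum fun z hz => ?_
          rw [sum_ind]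
          exact hAb z (hGW hz)
      _ = G.card * A := by rw [Finset.sum_const, nsmul_eq_mul]
  have hd0 := hdomsum 0 _ (fun z hz => hA z hz 0 (by decide))
  have hd4 := hdomsum 4 _ he
  have hover : ∀ t, ∑ z ∈ G, ∑ i, ind (a 0 z i ≠ none ∧ a (bb t) z i ≠ none) ≤ G.card * (o : ℝ) := by
    intro t
    calc ∑ z ∈ G, ∑ i, ind (a 0 z i ≠ none ∧ a (bb t) z i ≠ none) ≤ ∑ z ∈ G, (o : ℝ) := by
          refine Finset.sum_le_sum fun z hz => ?_
          rw [sum_ind]
          have := h.count_ge (hGW hz) (Finset.univ.filter (fun i => a 0 z i ≠ none ∧ a (bb t) z i ≠ none))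
            (by
              intro i hi
              obtain ⟨_, h1, h2⟩ := Finset.mem_filter.mp hi
              exact ⟨0, bb t, (bb_ne0 t).symm, h1, h2⟩)
          exact_mod_cast this
      _ = G.card * o := by rw [Finset.sum_const, nsmul_eq_mul]
  have hI : ∀ t, 2 * ((E G (a 0) + E G (fun z => a (bb t) z) - E G (fun z => (a 0 z, a (bb t) z))) +
      ℓ * ∑ z ∈ G, ∑ i, ind (a 0 z i ≠ none ∧ a (bb t) z i ≠ none)) ≤
      2 * (G.card * (2 * tA + te - g + m + ℓ * o)) := by
    intro t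
    have h1 := hEA 0 (by decide)
    have h2 := hEA (bb t) (bb_ne t)
    have h3 := hpair t
    have h4 := mul_le_mul_of_nonneg_left (hover t) (show 0 ≤ ℓ by linarith)
    have e : E G (fun z => a (bb t) z) = E G (a (bb t)) := rfl
    rw [e]
    have e' : 2 * ((G.card : ℝ) * (2 * tA + te - g + m + ℓ * o)) =
      2 * (G.card * tA + G.card * tA - G.card * (g - m - te) + ℓ * (G.card * o)) := by ring
    rw [e']
    linarith
  have hIsum := Finset.sum_le_sum (fun t (_ : t ∈ (Finset.univ : Finset (Fin 3))) => hI t)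
  rw [Finset.sum_const, Finset.card_univ, Fintype.card_fin, nsmul_eq_mul] at hIsum
  have hlow : G.card * (g - m - te - tA) ≤ E G (a 0) := by
    have h1 := hpair 0
    have h2 := E_pair_le G (a 0) (a (bb 0))
    have h3 := hEA (bb 0) (bb_ne 0)
    have e' : (G.card : ℝ) * (g - m - te - tA) = G.card * (g - m - te) - G.card * tA := by ring
    rw [e']
    linarith
  -- combine
  have hfin : (G.card : ℝ) * (g - m - te - tA) ≤ G.card * (ℓ * (1999 / 8000 * n) + 2 / 25 * n +
      25 / 2 * (6 * (2 * tA + te - g + m + ℓ * o) + 11 / 20000 * n)) := by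
    generalize (∑ t, 2 * ((E G (a 0) + E G (fun z => a (bb t) z) -
        E G (fun z => (a 0 z, a (bb t) z))) +
        ℓ * ∑ z ∈ G, ∑ i, ind (a 0 z i ≠ none ∧ a (bb t) z i ≠ none))) = X at hchain hIsum
    generalize (∑ z ∈ G, ∑ i, ind (a 4 z i ≠ none)) = Y at hchain hd4
    generalize (∑ z ∈ G, ∑ i, ind (a 0 z i ≠ none)) = S0 at hchain hd0
    generalize E G (a 0) = E0 at hchain hlow
    generalize (G.card : ℝ) = c at *
    push_cast at hIsum
    have e1 : ℓ * S0 ≤ ℓ * (c * (1999 / 8000 * n)) :=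
      mul_le_mul_of_nonneg_left hd0 (by linarith)
    have e2 : (1 / (2 / 25) : ℝ) * (X + Y) ≤
        (1 / (2 / 25)) * (3 * (2 * (c * (2 * tA + te - g + m + ℓ * o))) +
          c * (11 / 20000 * n)) := by
      apply mul_le_mul_of_nonneg_left _ (by norm_num)
      linarith
    have e3 : c * (g - m - te - tA) ≤ ℓ * (c * (1999 / 8000 * n)) + 2 / 25 * n * c +
        (1 / (2 / 25)) * (3 * (2 * (c * (2 * tA + te - g + m + ℓ * o))) +
          c * (11 / 20000 * n)) := by linarith
    refine e3.trans (le_of_eq ?_)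
    ring
  have hfin' := le_of_mul_le_mul_left hfin hGc
  exact numerics n ℓ g m o tA te hnpos l1 l2 hg1 hM ho htA hte hfin'

end Pool.Agent.SemRO
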