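import Pool.Agent.SemRO.Core2

/-! From families of sub-assignments to a bound on the number of points they certify. -/

namespace Pool.Agent.SemRO

open Finset

variable {n : ℕ}

/-- points certified by all five families -/
def Good (X : Fin 5 → Set (Fin n → Option Bool)) : Set (Fin n → Bool) :=
  {z | ∀ b, ∃ c ∈ X b, Sub c z}

open Classical in
/-- the first term (for a fixed enumeration) of `X` contained in `z` -/
noncomputable def firstTerm (X : Set (Fin n → Option Bool)) (z : Fin n → Bool) : Fin n → Option Bool :=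
  if h : (Finset.univ.filter (fun c => c ∈ X ∧ Sub c z)).Nonempty then
    Classical.choose (Finset.exists_min_image _
      (fun c => (Fintype.equivFin (Fin n → Option Bool) c).val) h)
  else fun _ => none

lemma firstTerm_spec {X : Set (Fin n → Option Bool)} {z : Fin n → Bool} (h : ∃ c ∈ X, Sub c z) :
    firstTerm X z ∈ X ∧ Sub (firstTerm X z) z ∧ ∀ c ∈ X, Sub c z →
      (Fintype.equivFin (Fin n → Option Bool) (firstTerm X z)).val ≤
      (Fintype.equivFin (Fin n → Option Bool) c).val := by
  classical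
  have hne : (Finset.univ.filter (fun c => c ∈ X ∧ Sub c z)).Nonempty := by
    obtain ⟨c, hc, hs⟩ := h
    exact ⟨c, Finset.mem_filter.mpr ⟨Finset.mem_univ _, hc, hs⟩⟩
  unfold firstTerm
  rw [dif_pos hne]
  obtain ⟨h1, h2⟩ := Classical.choose_spec (Finset.exists_min_image _
      (fun c => (Fintype.equivFin (Fin n → Option Bool) c).val) hne)
  refine ⟨(Finset.mem_filter.mp h1).2.1, (Finset.mem_filter.mp h1).2.2, fun c hc hs => ?_⟩
  exact h2 c (Finset.mem_filter.mpr ⟨Finset.mem_univ _, hc, hs⟩)

lemma Sub.congr_update {c : Fin n → Option Bool} {z : Fin n → Bool} {i : Fin n} {y : Bool}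
    (h : Sub c z) (hi : c i = none) : Sub c (Function.update z i y) := by
  intro j b hj
  by_cases hji : j = i
  · subst hji; rw [hi] at hj; cases hj
  · rw [Function.update_of_ne hji]; exact h j b hj

open Classical in
theorem sys_of_families (X : Fin 5 → Set (Fin n → Option Bool)) (F : Set (Fin n → Bool))
    (hsens : Sensitive F) (hXF : ∀ z ∈ Good X, z ∈ F) (o : ℕ)
    (hov : ∀ c : Fin 5 → Fin n → Option Bool, (∀ b, c b ∈ X b) → ∑ b, (dom (c b)).card ≤ n + o) :
    Sys (Finset.univ.filter (fun z => z ∈ Good X)) (fun b z => firstTerm (X b) z) o where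
  sub := by
    intro z hz b
    exact (firstTerm_spec ((Finset.mem_filter.mp hz).2 b)).2.1
  uniq := by
    intro z hz z' hz' b h1 h2
    obtain ⟨a1, a2, a3⟩ := firstTerm_spec ((Finset.mem_filter.mp hz).2 b)
    obtain ⟨b1, b2, b3⟩ := firstTerm_spec ((Finset.mem_filter.mp hz').2 b)
    have e1 := a3 _ b1 h1
    have e2 := b3 _ a1 h2
    exact (Fintype.equivFin _).injective (Fin.ext (le_antisymm e1 e2))
  closed := by
    intro u hu
    refine Finset.mem_filter.mpr ⟨Finset.mem_univ _, fun b => ?_⟩
    obtain ⟨w, hw, hs⟩ := hu b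
    exact ⟨_, (firstTerm_spec ((Finset.mem_filter.mp hw).2 b)).1, hs⟩
  cover := by
    intro z hz i
    by_contra hcon
    push Not at hcon
    have h1 : z ∈ Good X := (Finset.mem_filter.mp hz).2
    have h2 : Function.update z i (!z i) ∈ Good X := by
      intro b
      obtain ⟨a1, a2, _⟩ := firstTerm_spec (h1 b)
      exact ⟨_, a1, a2.congr_update (hcon b)⟩
    exact hsens z (hXF z h1) i (hXF _ h2)
  overlap := by
    intro z hz
    exact hov _ (fun b => (firstTerm_spec ((Finset.mem_filter.mp hz).2 b)).1)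

open Classical in
/-- The main counting theorem. -/
theorem count_bound (hn : 10 ^ 12 ≤ n) (X : Fin 5 → Set (Fin n → Option Bool))
    (F : Set (Fin n → Bool)) (hsens : Sensitive F) {L : ℕ} (hR : RectFree F L)
    (hXF : ∀ z ∈ Good X, z ∈ F) (A e o : ℕ) (hAe : 4 * A + e = n + o)
    (hXA : ∀ b, b ≠ 4 → ∀ c ∈ X b, (dom c).card ≤ A) (hXe : ∀ c ∈ X 4, (dom c).card ≤ e)
    (hA : (A : ℝ) ≤ 1999 / 8000 * n) (he : (e : ℝ) ≤ 11 / 20000 * n)
    (ho : (o : ℝ) ≤ 1 / 1000000 * n) (hLM : 0 < L * Nsub n o)
    (hM : Real.log ((L * Nsub n o : ℕ) : ℝ) ≤ 1 / 20000 * n) :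
    (((Finset.univ.filter (fun z => z ∈ Good X)).card : ℕ) : ℝ) ≤
      Real.exp (n * Real.log 2 - 3.75e-9 * n) := by
  have hsys := sys_of_families X F hsens hXF o (by
    intro c hc
    have h4 := hXe _ (hc 4)
    have h0 := hXA 0 (by decide) _ (hc 0)
    have h1 := hXA 1 (by decide) _ (hc 1)
    have h2 := hXA 2 (by decide) _ (hc 2)
    have h3 := hXA 3 (by decide) _ (hc 3)
    rw [Fin.sum_univ_five]
    omega)
  rcases (Finset.univ.filter (fun z => z ∈ Good X)).eq_empty_or_nonempty with hE | hne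
  · rw [hE]; simp only [Finset.card_empty, Nat.cast_zero]; positivity
  by_contra hcon
  push Not at hcon
  refine core_false hn hsys (F := F) (fun z hz => hXF z (Finset.mem_filter.mp hz).2) hR hne ?_ ?_ ho
    hLM hM ?_
  · intro z hz b hb
    have := hXA b hb _ (firstTerm_spec ((Finset.mem_filter.mp hz).2 b)).1
    exact (Nat.cast_le.mpr this).trans hA
  · intro z hz
    have := hXe _ (firstTerm_spec ((Finset.mem_filter.mp hz).2 4)).1
    exact (Nat.cast_le.mpr this).trans he
  · have h1 := Real.log_le_log (Real.exp_pos _) hcon.le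
    rwa [Real.log_exp] at h1

end Pool.Agent.SemRO
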