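import Mathlib

/-! Key inequality (T): certificates of dense sets carry at most two bits per queried variable. -/

namespace Pool.Agent.SemRO

open Finset

/-- the sub-assignment `c` is contained in the total assignment `z` -/
def Sub {n : ℕ} (c : Fin n → Option Bool) (z : Fin n → Bool) : Prop :=
  ∀ i b, c i = some b → z i = b

/-- the set of variables fixed by a sub-assignment -/
def dom {n : ℕ} (c : Fin n → Option Bool) : Finset (Fin n) :=
  Finset.univ.filter (fun i => c i ≠ none)

/-- slice of a set of points at the first coordinate -/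
def slice {n : ℕ} (b : Bool) (G : Finset (Fin (n + 1) → Bool)) : Finset (Fin n → Bool) :=
  Finset.univ.filter (fun z => (Fin.cons b z : Fin (n + 1) → Bool) ∈ G)

lemma mem_slice {n : ℕ} {b : Bool} {G : Finset (Fin (n + 1) → Bool)} {z : Fin n → Bool} :
    z ∈ slice b G ↔ (Fin.cons b z : Fin (n + 1) → Bool) ∈ G := by
  simp [slice]

lemma card_slices {n : ℕ} (G : Finset (Fin (n + 1) → Bool)) :
    G.card = (slice false G).card + (slice true G).card := by
  classical
  have hinj : ∀ b : Bool, Function.Injective (fun z : Fin n → Bool => (Fin.cons b z : Fin (n + 1) → Bool)) := by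
    intro b z w h
    exact Fin.cons_right_injective (α := fun _ => Bool) b h
  have h : G = (slice false G).image (fun z => (Fin.cons false z : Fin (n + 1) → Bool)) ∪
      (slice true G).image (fun z => (Fin.cons true z : Fin (n + 1) → Bool)) := by
    ext w
    simp only [mem_union, mem_image, mem_slice]
    constructor
    · intro hw
      cases hb : w 0
      · left
        refine ⟨Fin.tail w, ?_, ?_⟩
        · rw [← hb, Fin.cons_self_tail]; exact hw
        · rw [← hb, Fin.cons_self_tail]
      · right
        refine ⟨Fin.tail w, ?_, ?_⟩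
        · rw [← hb, Fin.cons_self_tail]; exact hw
        · rw [← hb, Fin.cons_self_tail]
    · rintro (⟨z, hz, rfl⟩ | ⟨z, hz, rfl⟩) <;> exact hz
  conv_lhs => rw [h]
  rw [card_union_of_disjoint, card_image_of_injective _ (hinj _), card_image_of_injective _ (hinj _)]
  rw [Finset.disjoint_left]
  intro w h1 h2
  simp only [mem_image] at h1 h2
  obtain ⟨z, _, rfl⟩ := h1
  obtain ⟨z', _, h'⟩ := h2
  have := congrFun h' 0
  simp at this

lemma sub_cons {n : ℕ} {c : Fin (n + 1) → Option Bool} {b : Bool} {z : Fin n → Bool} :
    Sub c (Fin.cons b z : Fin (n + 1) → Bool) ↔ (∀ b', c 0 = some b' → b = b') ∧ Sub (Fin.tail c) z := by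
  unfold Sub
  constructor
  · intro h
    refine ⟨fun b' hb' => ?_, fun i b' hb' => ?_⟩
    · simpa using h 0 b' hb'
    · simpa using h i.succ b' hb'
  · rintro ⟨h0, h1⟩ i b' hb'
    refine Fin.cases (motive := fun i => c i = some b' → (Fin.cons b z : Fin (n + 1) → Bool) i = b') ?_ ?_ i hb'
    · intro h; simpa using h0 b' h
    · intro i h; simpa using h1 i b' h

lemma card_dom_succ {n : ℕ} (c : Fin (n + 1) → Option Bool) :
    (dom c).card = (if c 0 = none then 0 else 1) + (dom (Fin.tail c)).card := by
  classical
  unfold dom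
  simp only [Finset.card_filter]
  rw [Fin.sum_univ_succ]
  congr 1
  by_cases h : c 0 = none <;> simp [h]

/-- concavity of `x^s` -/
lemma rpow_add_le {s a b : ℝ} (hs0 : 0 < s) (hs1 : s ≤ 1) (hb : 0 ≤ b) (hab : b ≤ a) :
    (a + b) ^ s ≤ a ^ s + ((2 : ℝ) ^ s - 1) * b ^ s := by
  have ha : 0 ≤ a := hb.trans hab
  rcases eq_or_lt_of_le ha with h0 | hpos
  · have hb0 : b = 0 := le_antisymm (by rw [← h0] at hab; exact hab) hb
    rw [← h0, hb0, add_zero, Real.zero_rpow hs0.ne']
    simp
  have hc := Real.concaveOn_rpow hs0.le hs1
  have hx : b ∈ Set.Ici (0 : ℝ) := hb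
  have hy : a + b ∈ Set.Ici (0 : ℝ) := add_nonneg ha hb
  have ht0 : 0 ≤ b / a := div_nonneg hb ha
  have ht1 : 0 ≤ 1 - b / a := by
    rw [sub_nonneg, div_le_one hpos]; exact hab
  have h1 := hc.2 hx hy ht0 ht1 (by ring)
  have h2 := hc.2 hx hy ht1 ht0 (by ring)
  simp only [smul_eq_mul] at h1 h2
  have e1 : b / a * b + (1 - b / a) * (a + b) = a := by field_simp; ring
  have e2 : (1 - b / a) * b + b / a * (a + b) = 2 * b := by field_simp; ring
  rw [e1] at h1
  rw [e2, Real.mul_rpow (by norm_num) hb] at h2
  nlinarith [h1, h2]

/-- The key inequality, in its indexed form. -/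
theorem T_family {ι : Type*} (s : ℝ) (hs0 : 0 < s) (hs1 : s ≤ 1) :
    ∀ (n : ℕ) (I : Finset ι) (c : ι → Fin n → Option Bool) (G : ι → Finset (Fin n → Bool)),
      (∀ i ∈ I, ∀ z ∈ G i, Sub (c i) z) →
      (∀ i ∈ I, ∀ j ∈ I, i ≠ j → ∀ z ∈ G i, ∀ z' ∈ G j, ¬ (Sub (c j) z ∧ Sub (c i) z')) →
      ∑ i ∈ I, ((2 : ℝ) ^ s - 1) ^ (dom (c i)).card * (((G i).card : ℝ) / 2 ^ n) ^ s ≤ 1 := by
  classical
  have h2s : (1 : ℝ) ≤ (2 : ℝ) ^ s := Real.one_le_rpow (by norm_num) hs0.le
  have h2s' : (2 : ℝ) ^ s ≤ 2 := by
    calc (2 : ℝ) ^ s ≤ (2 : ℝ) ^ (1 : ℝ) := Real.rpow_le_rpow_of_exponent_le (by norm_num) hs1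
      _ = 2 := by simp
  have hpos : (0 : ℝ) < (2 : ℝ) ^ s := by linarith
  have hr : (0 : ℝ) ≤ (2 : ℝ) ^ s - 1 := by linarith
  intro n
  induction n with
  | zero =>
    intro I c G _ hD
    -- at most one index with nonempty `G i`
    by_cases hex : ∃ i ∈ I, (G i).Nonempty
    · obtain ⟨i, hi, hne⟩ := hex
      rw [Finset.sum_eq_single_of_mem i hi]
      · have hc : (dom (c i)).card = 0 := by
          rw [Finset.card_eq_zero]
          ext j; exact j.elim0
        have hg : (G i).card ≤ 1 := by
          calc (G i).card ≤ Fintype.card (Fin 0 → Bool) := Finset.card_le_univ _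
            _ = 1 := by simp
        have hg' : ((G i).card : ℝ) ≤ 1 := by exact_mod_cast hg
        rw [hc, pow_zero, one_mul, pow_zero, div_one]
        exact Real.rpow_le_one (Nat.cast_nonneg _) hg' hs0.le
      · intro j hj hji
        have : G j = ∅ := by
          by_contra hne'
          obtain ⟨z', hz'⟩ := Finset.nonempty_iff_ne_empty.mpr hne'
          obtain ⟨z, hz⟩ := hne
          refine hD i hi j hj (fun h => hji h.symm) z hz z' hz' ⟨?_, ?_⟩
          · intro k; exact k.elim0
          · intro k; exact k.elim0
        rw [this]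
        simp [Real.zero_rpow hs0.ne']
    · push Not at hex
      rw [Finset.sum_eq_zero]
      · norm_num
      · intro i hi
        rw [hex i hi]
        simp [Real.zero_rpow hs0.ne']
  | succ n ih =>
    intro I c G hsub hD
    set r : ℝ := (2 : ℝ) ^ s - 1 with hrdef
    set θ : ℝ := ((2 : ℝ) ^ s)⁻¹ with hθ
    have hθpos : 0 < θ := inv_pos.mpr hpos
    have hrθ : r * θ = 1 - θ := by
      rw [hrdef, hθ]; field_simp
    have hθ1 : θ ≤ 1 := by rw [hθ]; exact inv_le_one_of_one_le₀ h2s
    have hθ2 : 1 ≤ 2 * θ := by
      rw [hθ]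
      rw [le_mul_inv_iff₀ hpos]; linarith
    -- the three families
    let I0 := I.filter (fun i => c i 0 ≠ some true)
    let I1 := I.filter (fun i => c i 0 ≠ some false)
    let Is := I.filter (fun i => c i 0 = none)
    have A0 := ih I0 (fun i => Fin.tail (c i)) (fun i => slice false (G i))
      (by
        intro i hi z hz
        have := hsub i (Finset.mem_filter.mp hi).1 _ (mem_slice.mp hz)
        exact (sub_cons.mp this).2)
      (by
        intro i hi j hj hij z hz z' hz' ⟨h1, h2⟩
        refine hD i (Finset.mem_filter.mp hi).1 j (Finset.mem_filter.mp hj).1 hij _ (mem_slice.mp hz) _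
          (mem_slice.mp hz') ⟨sub_cons.mpr ⟨?_, h1⟩, sub_cons.mpr ⟨?_, h2⟩⟩
        · intro b hb
          cases b
          · rfl
          · exact absurd hb (Finset.mem_filter.mp hj).2
        · intro b hb
          cases b
          · rfl
          · exact absurd hb (Finset.mem_filter.mp hi).2)
    have A1 := ih I1 (fun i => Fin.tail (c i)) (fun i => slice true (G i))
      (by
        intro i hi z hz
        have := hsub i (Finset.mem_filter.mp hi).1 _ (mem_slice.mp hz)
        exact (sub_cons.mp this).2)
      (by
        intro i hi j hj hij z hz z' hz' ⟨h1, h2⟩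
        refine hD i (Finset.mem_filter.mp hi).1 j (Finset.mem_filter.mp hj).1 hij _ (mem_slice.mp hz) _
          (mem_slice.mp hz') ⟨sub_cons.mpr ⟨?_, h1⟩, sub_cons.mpr ⟨?_, h2⟩⟩
        · intro b hb
          cases b
          · exact absurd hb (Finset.mem_filter.mp hj).2
          · rfl
        · intro b hb
          cases b
          · exact absurd hb (Finset.mem_filter.mp hi).2
          · rfl)
    have As := ih Is (fun i => Fin.tail (c i)) (fun i => slice false (G i) ∪ slice true (G i))
      (by
        intro i hi z hz
        rcases Finset.mem_union.mp hz with hz | hz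
        · exact (sub_cons.mp (hsub i (Finset.mem_filter.mp hi).1 _ (mem_slice.mp hz))).2
        · exact (sub_cons.mp (hsub i (Finset.mem_filter.mp hi).1 _ (mem_slice.mp hz))).2)
      (by
        intro i hi j hj hij z hz z' hz' ⟨h1, h2⟩
        have key : ∀ b b' : Bool, (Fin.cons b z : Fin (n + 1) → Bool) ∈ G i →
            (Fin.cons b' z' : Fin (n + 1) → Bool) ∈ G j → False := by
          intro b b' hz hz'
          refine hD i (Finset.mem_filter.mp hi).1 j (Finset.mem_filter.mp hj).1 hij _ hz _
            hz' ⟨sub_cons.mpr ⟨?_, h1⟩, sub_cons.mpr ⟨?_, h2⟩⟩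
          · intro b hb
            rw [(Finset.mem_filter.mp hj).2] at hb; exact absurd hb (by simp)
          · intro b hb
            rw [(Finset.mem_filter.mp hi).2] at hb; exact absurd hb (by simp)
        rcases Finset.mem_union.mp hz with hz | hz <;> rcases Finset.mem_union.mp hz' with hz' | hz' <;>
          exact key _ _ (mem_slice.mp hz) (mem_slice.mp hz'))
    -- rewrite the three sums as sums over `I`
    simp only [I0, I1, Is, Finset.sum_filter] at A0 A1 As
    have main : ∀ i ∈ I, r ^ (dom (c i)).card * (((G i).card : ℝ) / 2 ^ (n + 1)) ^ s ≤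
        (1 - θ) * (if c i 0 ≠ some true then r ^ (dom (Fin.tail (c i))).card *
            (((slice false (G i)).card : ℝ) / 2 ^ n) ^ s else 0) +
        (1 - θ) * (if c i 0 ≠ some false then r ^ (dom (Fin.tail (c i))).card *
            (((slice true (G i)).card : ℝ) / 2 ^ n) ^ s else 0) +
        (2 * θ - 1) * (if c i 0 = none then r ^ (dom (Fin.tail (c i))).card *
            (((slice false (G i) ∪ slice true (G i)).card : ℝ) / 2 ^ n) ^ s else 0) := by
      intro i hi
      have hcard := card_slices (G i)
      have hdom := card_dom_succ (c i)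
      have h2n : (0 : ℝ) < 2 ^ n := by positivity
      have hsplit : ∀ x : ℝ, 0 ≤ x → (x / 2 ^ (n + 1)) ^ s = θ * (x / 2 ^ n) ^ s := by
        intro x hx
        rw [pow_succ, show x / (2 ^ n * 2) = (2 : ℝ)⁻¹ * (x / 2 ^ n) by field_simp,
          Real.mul_rpow (by norm_num) (by positivity), Real.inv_rpow (by norm_num)]
      match hc0 : c i 0 with
      | some true =>
        have he : slice false (G i) = ∅ := by
          ext z
          simp only [mem_slice, Finset.notMem_empty, iff_false]
          intro hz
          have := (sub_cons.mp (hsub i hi _ hz)).1 true hc0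
          exact absurd this (by simp)
        have hd : (dom (c i)).card = (dom (Fin.tail (c i))).card + 1 := by
          rw [hdom, hc0]; simp [add_comm]
        have hcard' : (G i).card = (slice true (G i)).card := by rw [hcard, he]; simp
        rw [hcard', hd, hsplit _ (Nat.cast_nonneg _), pow_succ]
        rw [if_neg (show ¬ ((some true : Option Bool) ≠ some true) by simp),
          if_pos (show (some true : Option Bool) ≠ some false by simp),
          if_neg (show ¬ ((some true : Option Bool) = none) by simp), mul_zero, mul_zero, zero_add, add_zero]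
        have : r ^ (dom (Fin.tail (c i))).card * r * (θ * (((slice true (G i)).card : ℝ) / 2 ^ n) ^ s) =
            (r * θ) * (r ^ (dom (Fin.tail (c i))).card * (((slice true (G i)).card : ℝ) / 2 ^ n) ^ s) := by
          ring
        rw [this, hrθ]
      | some false =>
        have he : slice true (G i) = ∅ := by
          ext z
          simp only [mem_slice, Finset.notMem_empty, iff_false]
          intro hz
          have := (sub_cons.mp (hsub i hi _ hz)).1 false hc0
          exact absurd this (by simp)
        have hd : (dom (c i)).card = (dom (Fin.tail (c i))).card + 1 := by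
          rw [hdom, hc0]; simp [add_comm]
        have hcard' : (G i).card = (slice false (G i)).card := by rw [hcard, he]; simp
        rw [hcard', hd, hsplit _ (Nat.cast_nonneg _), pow_succ]
        rw [if_pos (show (some false : Option Bool) ≠ some true by simp),
          if_neg (show ¬ ((some false : Option Bool) ≠ some false) by simp),
          if_neg (show ¬ ((some false : Option Bool) = none) by simp), mul_zero, mul_zero, add_zero, add_zero]
        have : r ^ (dom (Fin.tail (c i))).card * r * (θ * (((slice false (G i)).card : ℝ) / 2 ^ n) ^ s) =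
            (r * θ) * (r ^ (dom (Fin.tail (c i))).card * (((slice false (G i)).card : ℝ) / 2 ^ n) ^ s) := by
          ring
        rw [this, hrθ]
      | none =>
        have hd : (dom (c i)).card = (dom (Fin.tail (c i))).card := by
          rw [hdom, hc0]; simp
        rw [hd, hcard, hsplit _ (Nat.cast_nonneg _)]
        rw [if_pos (show (none : Option Bool) ≠ some true by intro h; cases h),
          if_pos (show (none : Option Bool) ≠ some false by intro h; cases h),
          if_pos (show (none : Option Bool) = none from rfl)]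
        set a : ℝ := ((slice false (G i)).card : ℝ) / 2 ^ n with ha
        set b : ℝ := ((slice true (G i)).card : ℝ) / 2 ^ n with hb
        set u : ℝ := ((slice false (G i) ∪ slice true (G i)).card : ℝ) / 2 ^ n with hu
        have ha0 : 0 ≤ a := div_nonneg (Nat.cast_nonneg _) h2n.le
        have hb0 : 0 ≤ b := div_nonneg (Nat.cast_nonneg _) h2n.le
        have hab : (((slice false (G i)).card + (slice true (G i)).card : ℕ) : ℝ) / 2 ^ n = a + b := by
          rw [ha, hb]; push_cast; ring
        rw [hab]
        have hua : a ≤ u := by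
          rw [ha, hu]
          gcongr
          exact Finset.subset_union_left
        have hub : b ≤ u := by
          rw [hb, hu]
          gcongr
          exact Finset.subset_union_right
        have hR : 0 ≤ r ^ (dom (Fin.tail (c i))).card := pow_nonneg hr _
        have key : θ * (a + b) ^ s ≤ (1 - θ) * a ^ s + (1 - θ) * b ^ s + (2 * θ - 1) * u ^ s := by
          rcases le_total b a with hle | hle
          · have h1 := rpow_add_le hs0 hs1 hb0 hle
            have h2 : a ^ s ≤ u ^ s := Real.rpow_le_rpow ha0 hua hs0.le
            have h3 : (2 * θ - 1) * a ^ s ≤ (2 * θ - 1) * u ^ s :=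
              mul_le_mul_of_nonneg_left h2 (by linarith)
            have h4 : θ * (a + b) ^ s ≤ θ * (a ^ s + r * b ^ s) := mul_le_mul_of_nonneg_left h1 hθpos.le
            have h5 : θ * (a ^ s + r * b ^ s) = θ * a ^ s + (r * θ) * b ^ s := by ring
            rw [h5, hrθ] at h4
            linarith
          · have h1 := rpow_add_le hs0 hs1 ha0 hle
            have h2 : b ^ s ≤ u ^ s := Real.rpow_le_rpow hb0 hub hs0.le
            have h3 : (2 * θ - 1) * b ^ s ≤ (2 * θ - 1) * u ^ s :=
              mul_le_mul_of_nonneg_left h2 (by linarith)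
            have h4 : θ * (b + a) ^ s ≤ θ * (b ^ s + r * a ^ s) := mul_le_mul_of_nonneg_left h1 hθpos.le
            have h5 : θ * (b ^ s + r * a ^ s) = θ * b ^ s + (r * θ) * a ^ s := by ring
            rw [h5, hrθ] at h4
            rw [add_comm a b]
            linarith
        calc r ^ (dom (Fin.tail (c i))).card * (θ * (a + b) ^ s)
            ≤ r ^ (dom (Fin.tail (c i))).card *
              ((1 - θ) * a ^ s + (1 - θ) * b ^ s + (2 * θ - 1) * u ^ s) :=
              mul_le_mul_of_nonneg_left key hR
          _ = _ := by ring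
    calc ∑ i ∈ I, r ^ (dom (c i)).card * (((G i).card : ℝ) / 2 ^ (n + 1)) ^ s
        ≤ ∑ i ∈ I, _ := Finset.sum_le_sum main
      _ = (1 - θ) * ∑ i ∈ I, (if c i 0 ≠ some true then r ^ (dom (Fin.tail (c i))).card *
            (((slice false (G i)).card : ℝ) / 2 ^ n) ^ s else 0) +
        (1 - θ) * ∑ i ∈ I, (if c i 0 ≠ some false then r ^ (dom (Fin.tail (c i))).card *
            (((slice true (G i)).card : ℝ) / 2 ^ n) ^ s else 0) +
        (2 * θ - 1) * ∑ i ∈ I, (if c i 0 = none then r ^ (dom (Fin.tail (c i))).card *
            (((slice false (G i) ∪ slice true (G i)).card : ℝ) / 2 ^ n) ^ s else 0) := by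
          rw [Finset.sum_add_distrib, Finset.sum_add_distrib, Finset.mul_sum, Finset.mul_sum,
            Finset.mul_sum]
      _ ≤ (1 - θ) * 1 + (1 - θ) * 1 + (2 * θ - 1) * 1 := by
          have g1 : 0 ≤ 1 - θ := by linarith
          have g2 : 0 ≤ 2 * θ - 1 := by linarith
          exact add_le_add (add_le_add (mul_le_mul_of_nonneg_left A0 g1)
            (mul_le_mul_of_nonneg_left A1 g1)) (mul_le_mul_of_nonneg_left As g2)
      _ = 1 := by ring

end Pool.Agent.SemRO
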